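import Mathlib

set_option autoImplicit false

namespace Pool.Agent.J6H88.HyperQ

open Finset

/-- a finite group is generated by logarithmically many elements -/
lemma exists_generators (A : Type*) [Group A] [Fintype A] [DecidableEq A] :
    ∃ T : Finset A, Subgroup.closure (T : Set A) = ⊤ ∧ 2 ^ T.card ≤ Fintype.card A := by
  classical
  set S : Finset (Finset A) := univ.filter (fun T => 2 ^ T.card ≤ Nat.card (Subgroup.closure (T : Set A))) with hS
  have hne : S.Nonempty := ⟨∅, by simp [hS]⟩
  obtain ⟨T, hT, hmax⟩ := Finset.exists_max_image S Finset.card hne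
  have hT2 : 2 ^ T.card ≤ Nat.card (Subgroup.closure (T : Set A)) := by
    rw [hS, mem_filter] at hT; exact hT.2
  refine ⟨T, ?_, ?_⟩
  · by_contra hcon
    obtain ⟨a, ha⟩ : ∃ a, a ∉ Subgroup.closure (T : Set A) := by
      by_contra h
      push Not at h
      exact hcon (by rw [eq_top_iff]; intro a _; exact h a)
    have haT : a ∉ T := fun h => ha (Subgroup.subset_closure h)
    set H := Subgroup.closure (T : Set A) with hH
    set H' := Subgroup.closure ((insert a T : Finset A) : Set A) with hH'
    have hle : H ≤ H' := by
      apply Subgroup.closure_mono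
      simp
    have haH' : a ∈ H' := Subgroup.subset_closure (by simp)
    have hdvd : Nat.card H ∣ Nat.card H' := Subgroup.card_dvd_of_le hle
    have hlt : Nat.card H ≠ Nat.card H' := by
      intro h
      have : H = H' := Subgroup.eq_of_le_of_card_ge hle (by omega)
      exact ha (this ▸ haH')
    have hpos : 0 < Nat.card H' := Nat.card_pos
    have h2 : 2 * Nat.card H ≤ Nat.card H' := by
      obtain ⟨c, hc⟩ := hdvd
      rcases c with _ | _ | c
      · omega
      · omega
      · rw [hc]; nlinarith [Nat.card_pos (α := H)]
    have hins : insert a T ∈ S := by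
      rw [hS, mem_filter]
      refine ⟨mem_univ _, ?_⟩
      rw [card_insert_of_notMem haT, pow_succ]
      change 2 ^ T.card * 2 ≤ Nat.card H'
      omega
    have := hmax _ hins
    rw [card_insert_of_notMem haT] at this
    omega
  · refine hT2.trans ?_
    rw [← Nat.card_eq_fintype_card]
    exact Subgroup.card_le_card_group _

variable {W : Type*} [CommGroupWithZero W] [Fintype W] [DecidableEq W]

/-- few multiplicative bijections -/
lemma card_mulAut_le (P : Finset (Equiv.Perm W)) (hP : ∀ e ∈ P, ∀ a b, e (a * b) = e a * e b) :
    P.card ≤ (Fintype.card W) ^ (Nat.log 2 (Fintype.card Wˣ)) := by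
  classical
  obtain ⟨T, hT, hTc⟩ := exists_generators Wˣ
  have hlog : T.card ≤ Nat.log 2 (Fintype.card Wˣ) := by
    apply Nat.le_log_of_pow_le (by norm_num) hTc
  have hzero : ∀ e ∈ P, e 0 = 0 := by
    intro e he
    obtain ⟨a, ha⟩ := e.surjective 0
    have := hP e he 0 a
    rw [zero_mul, ha, mul_zero] at this
    exact this
  have hone : ∀ e ∈ P, e 1 = 1 := by
    intro e he
    have h1 := hP e he 1 1
    rw [mul_one] at h1
    have h2 : e 1 ≠ 0 := by
      intro h
      rw [← hzero e he] at h
      exact one_ne_zero (e.injective h)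
    have h3 : e 1 * 1 = e 1 * e 1 := by rw [mul_one]; exact h1
    exact (mul_left_cancel₀ h2 h3).symm
  have hcard : P.card ≤ (univ : Finset (T → W)).card := by
    apply Finset.card_le_card_of_injOn (fun e => fun t : T => e ((t : Wˣ) : W))
    · intro _ _; exact Finset.mem_coe.mpr (mem_univ _)
    · intro e he e' he' hEq
      have he2 : e ∈ P := he
      have he2' : e' ∈ P := he'
      have hall : ∀ u : Wˣ, e (u : W) = e' (u : W) := by
        intro u
        have hu : u ∈ Subgroup.closure (T : Set Wˣ) := by rw [hT]; exact Subgroup.mem_top u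
        induction hu using Subgroup.closure_induction with
        | mem x hx => exact congrFun hEq ⟨x, hx⟩
        | one => rw [Units.val_one, hone e he2, hone e' he2']
        | mul x y _ _ hx hy =>
          rw [Units.val_mul, hP e he2, hP e' he2', hx, hy]
        | inv x _ hx =>
          have h1 : e (x : W) * e ((x⁻¹ : Wˣ) : W) = 1 := by
            rw [← hP e he2, ← Units.val_mul, mul_inv_cancel, Units.val_one, hone e he2]
          have h2 : e' (x : W) * e' ((x⁻¹ : Wˣ) : W) = 1 := by
            rw [← hP e' he2', ← Units.val_mul, mul_inv_cancel, Units.val_one, hone e' he2']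
          have hne : e (x : W) ≠ 0 := left_ne_zero_of_mul_eq_one h1
          rw [← hx] at h2
          exact mul_left_cancel₀ hne (h1.trans h2.symm)
      ext w
      rcases eq_or_ne w 0 with rfl | hw
      · rw [hzero e he2, hzero e' he2']
      · exact hall (Units.mk0 w hw)
  calc P.card ≤ _ := hcard
    _ = (Fintype.card W) ^ T.card := by
        rw [Finset.card_univ, Fintype.card_fun, Fintype.card_coe]
    _ ≤ _ := Nat.pow_le_pow_right Fintype.card_pos hlog

end Pool.Agent.J6H88.HyperQ
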