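import Mathlib

set_option autoImplicit false

namespace Pool.Agent.J6H88.HyperQ

open Finset

section General

variable {O : Type*} [Fintype O] [DecidableEq O]

/-- Boolean functions that are forced to be `true` on `T`. -/
lemma card_forced (T : Finset O) :
    (univ.filter (fun F : O → Bool => ∀ o ∈ T, F o = true)).card * 2 ^ T.card = 2 ^ Fintype.card O := by
  have h1 : (univ.filter (fun F : O → Bool => ∀ o ∈ T, F o = true)) =
      Fintype.piFinset (fun o => if o ∈ T then ({true} : Finset Bool) else univ) := by
    ext F
    simp only [mem_filter, mem_univ, true_and, Fintype.mem_piFinset]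
    constructor
    · intro h o
      by_cases ho : o ∈ T
      · simp [ho, h o ho]
      · simp [ho]
    · intro h o ho
      have := h o
      simpa [ho] using this
  rw [h1, Fintype.card_piFinset]
  have h2 : ∀ o : O, (if o ∈ T then ({true} : Finset Bool) else univ).card = if o ∈ T then 1 else 2 := by
    intro o
    split_ifs <;> simp
  simp only [h2]
  rw [Finset.prod_ite]
  simp only [prod_const_one, one_mul, prod_const]
  rw [← pow_add]
  congr 1
  have h3 : T.card = (univ.filter (fun o => o ∈ T)).card := by
    congr 1
    ext o; simp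
  rw [h3, add_comm, Finset.card_filter_add_card_filter_not]
  rfl

/-- Adding one more independent pair constraint multiplies the count by at most `3/4`. -/
lemma card_step (P : Finset (O → Bool)) (a b : O)
    (hP : ∀ F ∈ P, Function.update (Function.update F a true) b true ∈ P) :
    4 * (P.filter (fun F => ¬ (F a = true ∧ F b = true))).card ≤ 3 * P.card := by
  set g : (O → Bool) → (O → Bool) := fun F => Function.update (Function.update F a true) b true with hg
  have hcount : P.card ≤ 4 * (P.image g).card := by
    apply Finset.card_le_mul_card_image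
    intro G _
    have : (P.filter (fun F => g F = G)).card ≤ (univ : Finset (Bool × Bool)).card := by
      apply Finset.card_le_card_of_injOn (fun F => (F a, F b))
      · intro _ _; exact Finset.mem_coe.mpr (mem_univ _)
      · intro F hF F' hF' hEq
        simp only [coe_filter, Set.mem_ofPred_eq] at hF hF'
        simp only [Prod.mk.injEq] at hEq
        have h1 : g F = g F' := hF.2.trans hF'.2.symm
        funext o
        by_cases hoa : o = a
        · rw [hoa]; exact hEq.1
        by_cases hob : o = b
        · rw [hob]; exact hEq.2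
        have := congrFun h1 o
        simpa [hg, Function.update_of_ne hoa, Function.update_of_ne hob] using this
    simpa using this
  have hsub : P.image g ⊆ P.filter (fun F => F a = true ∧ F b = true) := by
    intro G hG
    obtain ⟨F, hF, rfl⟩ := Finset.mem_image.mp hG
    rw [mem_filter]
    refine ⟨hP F hF, ?_, ?_⟩
    · simp only [hg]
      by_cases hab : a = b
      · subst hab; simp
      · rw [Function.update_of_ne hab]; simp
    · simp [hg]
  have h2 := Finset.card_le_card hsub
  have h3 := Finset.card_filter_add_card_filter_not (s := P) (fun F => F a = true ∧ F b = true)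
  omega

/-- Independent pair constraints. -/
lemma card_pairs {ι : Type*} [DecidableEq ι] (a b : ι → O) (U : Finset ι)
    (hU : ∀ u ∈ U, ∀ v ∈ U, u ≠ v → a u ≠ a v ∧ a u ≠ b v ∧ b u ≠ a v ∧ b u ≠ b v) :
    4 ^ U.card * (univ.filter (fun F : O → Bool => ∀ u ∈ U, ¬ (F (a u) = true ∧ F (b u) = true))).card
      ≤ 3 ^ U.card * 2 ^ Fintype.card O := by
  induction U using Finset.induction_on with
  | empty =>
    simp
  | insert v U hv ih =>
    have ih' := ih (fun u hu w hw h => hU u (mem_insert_of_mem hu) w (mem_insert_of_mem hw) h)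
    rw [card_insert_of_notMem hv]
    set P := (univ.filter (fun F : O → Bool => ∀ u ∈ U, ¬ (F (a u) = true ∧ F (b u) = true))) with hP
    have heq : (univ.filter (fun F : O → Bool => ∀ u ∈ insert v U, ¬ (F (a u) = true ∧ F (b u) = true))) =
        P.filter (fun F => ¬ (F (a v) = true ∧ F (b v) = true)) := by
      ext F
      simp only [hP, mem_filter, mem_univ, true_and, mem_insert, forall_eq_or_imp]
      tauto
    rw [heq]
    have hstep := card_step P (a v) (b v) (by
      intro F hF
      rw [hP, mem_filter] at hF ⊢
      refine ⟨mem_univ _, ?_⟩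
      intro u hu
      have hne := hU u (mem_insert_of_mem hu) v (mem_insert_self _ _) (fun h => hv (h ▸ hu))
      rw [Function.update_of_ne hne.2.1, Function.update_of_ne hne.1,
        Function.update_of_ne hne.2.2.2, Function.update_of_ne hne.2.2.1]
      exact hF.2 u hu)
    calc 4 ^ (U.card + 1) * (P.filter (fun F => ¬ (F (a v) = true ∧ F (b v) = true))).card
        = 4 ^ U.card * (4 * (P.filter (fun F => ¬ (F (a v) = true ∧ F (b v) = true))).card) := by ring
      _ ≤ 4 ^ U.card * (3 * P.card) := Nat.mul_le_mul_left _ hstep
      _ = 3 * (4 ^ U.card * P.card) := by ring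
      _ ≤ 3 * (3 ^ U.card * 2 ^ Fintype.card O) := Nat.mul_le_mul_left _ ih'
      _ = 3 ^ (U.card + 1) * 2 ^ Fintype.card O := by ring

/-- Greedy choice of a conflict-free set. -/
lemma exists_conflictFree {ι : Type*} [Fintype ι] [DecidableEq ι] (conf : ι → ι → Prop)
    (hrefl : ∀ u, conf u u) (hsymm : ∀ u v, conf u v → conf v u) (d : ℕ)
    (hd : ∀ u, ∀ T : Finset ι, (∀ v ∈ T, conf u v) → T.card ≤ d) :
    ∃ U : Finset ι, (∀ u ∈ U, ∀ v ∈ U, u ≠ v → ¬ conf u v) ∧ Fintype.card ι ≤ d * U.card := by
  classical
  set good : Finset (Finset ι) := univ.filter (fun U => ∀ u ∈ U, ∀ v ∈ U, u ≠ v → ¬ conf u v) with hgood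
  have hne : good.Nonempty := ⟨∅, by simp [hgood]⟩
  obtain ⟨U, hU, hmax⟩ := Finset.exists_max_image good Finset.card hne
  have hUg : ∀ u ∈ U, ∀ v ∈ U, u ≠ v → ¬ conf u v := by
    rw [hgood, mem_filter] at hU
    exact hU.2
  refine ⟨U, hUg, ?_⟩
  have hcover : (univ : Finset ι) ⊆ U.biUnion (fun u => univ.filter (fun v => conf u v)) := by
    intro v _
    rw [mem_biUnion]
    by_contra hcon
    push Not at hcon
    have hv : ∀ u ∈ U, ¬ conf u v := by
      intro u hu h
      exact hcon u hu (by simpa using h)
    have hvU : v ∉ U := fun h => hv v h (hrefl v)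
    have hins : insert v U ∈ good := by
      rw [hgood, mem_filter]
      refine ⟨mem_univ _, ?_⟩
      intro u hu w hw huw
      rcases mem_insert.mp hu with rfl | hu'
      · rcases mem_insert.mp hw with rfl | hw'
        · exact absurd rfl huw
        · exact fun h => hv w hw' (hsymm _ _ h)
      · rcases mem_insert.mp hw with rfl | hw'
        · exact hv u hu'
        · exact hUg u hu' w hw' huw
    have := hmax _ hins
    rw [card_insert_of_notMem hvU] at this
    omega
  calc Fintype.card ι = (univ : Finset ι).card := rfl
    _ ≤ (U.biUnion (fun u => univ.filter (fun v => conf u v))).card := card_le_card hcover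
    _ ≤ ∑ u ∈ U, (univ.filter (fun v => conf u v)).card := card_biUnion_le
    _ ≤ ∑ u ∈ U, d := by
        apply sum_le_sum
        intro u _
        exact hd u _ (by simp)
    _ = d * U.card := by rw [sum_const, smul_eq_mul, mul_comm]

end General

section Group

variable (A : Type*) [CommGroup A]

/-- Triples up to common scaling and permutation. -/
def tripSetoid : Setoid (Fin 3 → A) where
  r v w := ∃ σ : Equiv.Perm (Fin 3), ∃ t : A, ∀ i, w i = t * v (σ i)
  iseqv :=
    { refl := fun v => ⟨1, 1, fun i => by simp⟩
      symm := by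
        rintro v w ⟨σ, t, h⟩
        refine ⟨σ⁻¹, t⁻¹, fun i => ?_⟩
        rw [h (σ⁻¹ i)]
        simp
      trans := by
        rintro v w u ⟨σ, t, h⟩ ⟨τ, s, h'⟩
        refine ⟨σ * τ, s * t, fun i => ?_⟩
        rw [h' i, h (τ i), mul_assoc]
        rfl }

/-- Orbits of triples. -/
abbrev Orb : Type _ := Quotient (tripSetoid A)

variable {A}

/-- The orbit of `(a,b,c)`. -/
def orb (a b c : A) : Orb A := Quotient.mk (tripSetoid A) ![a, b, c]

lemma orb_eq_of {v w : Fin 3 → A} (σ : Equiv.Perm (Fin 3)) (t : A) (h : ∀ i, w i = t * v (σ i)) :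
    Quotient.mk (tripSetoid A) v = Quotient.mk (tripSetoid A) w :=
  Quotient.sound ⟨σ, t, h⟩

lemma orb_swap01 (a b c : A) : orb a b c = orb b a c :=
  orb_eq_of (Equiv.swap 0 1) 1 (by
    intro i
    fin_cases i
    · simp
    · simp
    · have : (Equiv.swap (0 : Fin 3) 1) 2 = 2 := by decide
      simp [this])

lemma orb_swap12 (a b c : A) : orb a b c = orb a c b :=
  orb_eq_of (Equiv.swap 1 2) 1 (by
    intro i
    fin_cases i
    · have : (Equiv.swap (1 : Fin 3) 2) 0 = 0 := by decide
      simp [this]
    · simp
    · simp)

lemma orb_mul (t a b c : A) : orb (t * a) (t * b) (t * c) = orb a b c := by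
  symm
  refine orb_eq_of 1 t ?_
  intro i
  fin_cases i <;> simp

/-- each orbit contains at most six triples with prescribed first two entries -/
lemma card_fiber_le [Fintype A] [DecidableEq A] (x y : A) (o : Orb A) (T : Finset A)
    (hT : ∀ u ∈ T, orb x y u = o) : T.card ≤ 6 := by
  classical
  rcases T.eq_empty_or_nonempty with rfl | ⟨u0, hu0⟩
  · simp
  have h0 := hT u0 hu0
  have hsub : T ⊆ (univ : Finset (Equiv.Perm (Fin 3))).image
      (fun σ => x * (![x, y, u0] (σ 0))⁻¹ * ![x, y, u0] (σ 2)) := by
    intro u hu
    have h1 : orb x y u0 = orb x y u := h0.trans (hT u hu).symm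
    obtain ⟨σ, t, h⟩ := Quotient.exact h1
    rw [mem_image]
    refine ⟨σ, mem_univ _, ?_⟩
    have hx := h 0
    have hu' := h 2
    simp only [Matrix.cons_val_zero, Matrix.cons_val] at hx hu'
    have ht : t = x * (![x, y, u0] (σ 0))⁻¹ := by
      rw [eq_mul_inv_iff_mul_eq]
      exact hx.symm
    rw [← ht]
    exact hu'.symm
  calc T.card ≤ _ := card_le_card hsub
    _ ≤ (univ : Finset (Equiv.Perm (Fin 3))).card := card_image_le
    _ = 6 := by simp [Fintype.card_perm]; rfl

variable [Fintype A] [DecidableEq A]

noncomputable instance : Fintype (Orb A) := Fintype.ofFinite _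
noncomputable instance : DecidableEq (Orb A) := Classical.decEq _

/-- number of orbits -/
lemma card_orb_ge : (Fintype.card A) ^ 2 ≤ 6 * Fintype.card (Orb A) := by
  classical
  have hfib : ∀ o ∈ (univ : Finset (Orb A)),
      ((univ : Finset (Fin 3 → A)).filter (fun v => Quotient.mk (tripSetoid A) v = o)).card ≤
        6 * Fintype.card A := by
    intro o _
    induction o using Quotient.inductionOn with
    | h v =>
      have hsub : (univ : Finset (Fin 3 → A)).filter
          (fun w => Quotient.mk (tripSetoid A) w = Quotient.mk (tripSetoid A) v) ⊆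
          ((univ : Finset (Equiv.Perm (Fin 3) × A)).image (fun s => fun i => s.2 * v (s.1 i))) := by
        intro w hw
        rw [mem_filter] at hw
        obtain ⟨σ, t, h⟩ := Quotient.exact hw.2.symm
        rw [mem_image]
        exact ⟨(σ, t), mem_univ _, (funext h).symm⟩
      calc _ ≤ _ := card_le_card hsub
        _ ≤ (univ : Finset (Equiv.Perm (Fin 3) × A)).card := card_image_le
        _ = 6 * Fintype.card A := by
            rw [Finset.card_univ, Fintype.card_prod, Fintype.card_perm]; rfl
  have h := Finset.card_le_mul_card_image_of_maps_to (s := (univ : Finset (Fin 3 → A)))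
    (t := (univ : Finset (Orb A))) (f := fun v => Quotient.mk (tripSetoid A) v)
    (fun _ _ => mem_univ _) (6 * Fintype.card A) hfib
  rw [Finset.card_univ, Finset.card_univ, Fintype.card_fun, Fintype.card_fin] at h
  have hpos : 0 < Fintype.card A := Fintype.card_pos_iff.mpr ⟨1⟩
  have h2 : Fintype.card A * (Fintype.card A) ^ 2 ≤ Fintype.card A * (6 * Fintype.card (Orb A)) := by
    calc _ = (Fintype.card A) ^ 3 := by ring
      _ ≤ _ := h
      _ = _ := by ring
  exact Nat.le_of_mul_le_mul_left h2 hpos

/-- Functions with `F(1,e,w) = true` for all `w`. -/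
noncomputable def forced (e : A) : Finset (Orb A → Bool) :=
  univ.filter (fun F => ∀ w, F (orb 1 e w) = true)

lemma card_forced_le (e : A) :
    ∃ k : ℕ, Fintype.card A ≤ 6 * k ∧ (forced e).card * 2 ^ k = 2 ^ Fintype.card (Orb A) := by
  classical
  set T : Finset (Orb A) := univ.image (fun w => orb 1 e w) with hT
  refine ⟨T.card, ?_, ?_⟩
  · apply Finset.card_le_mul_card_image
    intro o _
    apply card_fiber_le 1 e o
    intro u hu
    exact (mem_filter.mp hu).2
  · rw [← card_forced T]
    congr 2
    ext F
    simp [forced, hT]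

/-- Functions that yield an associative hyperaddition for robust reasons. -/
noncomputable def good (A : Type*) [CommGroup A] [Fintype A] [DecidableEq A] : Finset (Orb A → Bool) :=
  univ.filter (fun F => ∀ x y z w : A, ∃ u : A, F (orb x y u) = true ∧ F (orb u z w) = true)

lemma card_bad_le (x y z w : A) :
    ∃ k : ℕ, Fintype.card A ≤ 24 * k ∧
      4 ^ k * (univ.filter (fun F : Orb A → Bool =>
        ¬ ∃ u : A, F (orb x y u) = true ∧ F (orb u z w) = true)).card ≤ 3 ^ k * 2 ^ Fintype.card (Orb A) := by
  classical
  set a : A → Orb A := fun u => orb x y u with ha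
  set b : A → Orb A := fun u => orb u z w with hb
  have hb' : ∀ u, b u = orb z w u := by
    intro u
    rw [hb]
    simp only
    rw [orb_swap01, orb_swap12]
  obtain ⟨U, hU, hcard⟩ := exists_conflictFree
    (fun u v => a u = a v ∨ a u = b v ∨ b u = a v ∨ b u = b v)
    (fun u => Or.inl rfl)
    (by
      rintro u v (h | h | h | h)
      · exact Or.inl h.symm
      · exact Or.inr (Or.inr (Or.inl h.symm))
      · exact Or.inr (Or.inl h.symm)
      · exact Or.inr (Or.inr (Or.inr h.symm)))
    24
    (by
      intro u T hT
      have hsub : T ⊆ ((T.filter (fun v => a v = a u)) ∪ (T.filter (fun v => b v = a u))) ∪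
          ((T.filter (fun v => a v = b u)) ∪ (T.filter (fun v => b v = b u))) := by
        intro v hv
        simp only [mem_union, mem_filter]
        rcases hT v hv with h | h | h | h
        · exact Or.inl (Or.inl ⟨hv, h.symm⟩)
        · exact Or.inl (Or.inr ⟨hv, h.symm⟩)
        · exact Or.inr (Or.inl ⟨hv, h.symm⟩)
        · exact Or.inr (Or.inr ⟨hv, h.symm⟩)
      have c1 : (T.filter (fun v => a v = a u)).card ≤ 6 :=
        card_fiber_le x y (a u) _ (fun v hv => (mem_filter.mp hv).2)
      have c2 : (T.filter (fun v => b v = a u)).card ≤ 6 :=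
        card_fiber_le z w (a u) _ (fun v hv => (hb' v).symm.trans (mem_filter.mp hv).2)
      have c3 : (T.filter (fun v => a v = b u)).card ≤ 6 :=
        card_fiber_le x y (b u) _ (fun v hv => (mem_filter.mp hv).2)
      have c4 : (T.filter (fun v => b v = b u)).card ≤ 6 :=
        card_fiber_le z w (b u) _ (fun v hv => (hb' v).symm.trans (mem_filter.mp hv).2)
      have := card_le_card hsub
      have u1 := card_union_le ((T.filter (fun v => a v = a u)) ∪ (T.filter (fun v => b v = a u)))
          ((T.filter (fun v => a v = b u)) ∪ (T.filter (fun v => b v = b u)))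
      have u2 := card_union_le (T.filter (fun v => a v = a u)) (T.filter (fun v => b v = a u))
      have u3 := card_union_le (T.filter (fun v => a v = b u)) (T.filter (fun v => b v = b u))
      omega)
  refine ⟨U.card, hcard, ?_⟩
  refine le_trans ?_ (card_pairs a b U ?_)
  · apply Nat.mul_le_mul_left
    apply card_le_card
    intro F hF
    simp only [mem_filter, mem_univ, true_and] at hF ⊢
    intro u _ hu
    exact hF ⟨u, hu⟩
  · intro u hu v hv huv
    have := hU u hu v hv huv
    push Not at this
    exact this

end Group

end Pool.Agent.J6H88.HyperQ
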