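import Mathlib
import Pool.Agent.J6H88.HyperQ.Count

set_option autoImplicit false

namespace Pool.Agent.J6H88.HyperQ

open Finset

/-- the numerical condition under which most relations are good -/
def Large (r : ℕ) : Prop := (r : ℝ) ^ 4 * (3 / 4 : ℝ) ^ (r / 24) ≤ 1 / 2

lemma eventually_large : ∀ᶠ r : ℕ in Filter.atTop, Large r := by
  have h1 : Filter.Tendsto (fun m : ℕ => (24 : ℝ) ^ 4 * (((m + 1 : ℕ) : ℝ) ^ 4 * (3 / 4 : ℝ) ^ (m + 1)) * (4 / 3))
      Filter.atTop (nhds 0) := by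
    have h := tendsto_pow_const_mul_const_pow_of_abs_lt_one 4 (r := (3 / 4 : ℝ)) (by rw [abs_of_pos] <;> norm_num)
    have h' := (h.comp (Filter.tendsto_add_atTop_nat 1)).const_mul ((24 : ℝ) ^ 4)
    have h'' := h'.mul_const (4 / 3 : ℝ)
    simpa using h''
  have h2 : ∀ᶠ m : ℕ in Filter.atTop, (24 : ℝ) ^ 4 * (((m + 1 : ℕ) : ℝ) ^ 4 * (3 / 4 : ℝ) ^ (m + 1)) * (4 / 3) < 1 / 2 :=
    h1.eventually (gt_mem_nhds (by norm_num))
  have h3 : Filter.Tendsto (fun r : ℕ => r / 24) Filter.atTop Filter.atTop :=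
    Nat.tendsto_div_const_atTop (by norm_num)
  filter_upwards [h3.eventually h2] with r hr
  unfold Large
  refine le_trans ?_ hr.le
  have h4 : (r : ℝ) ≤ 24 * ((r / 24 + 1 : ℕ) : ℝ) := by
    have : r ≤ 24 * (r / 24 + 1) := by omega
    exact_mod_cast this
  have h5 : (r : ℝ) ^ 4 ≤ (24 * ((r / 24 + 1 : ℕ) : ℝ)) ^ 4 := pow_le_pow_left₀ (by positivity) h4 4
  calc (r : ℝ) ^ 4 * (3 / 4 : ℝ) ^ (r / 24) ≤ (24 * ((r / 24 + 1 : ℕ) : ℝ)) ^ 4 * (3 / 4 : ℝ) ^ (r / 24) := by
        apply mul_le_mul_of_nonneg_right h5 (by positivity)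
    _ = (24 : ℝ) ^ 4 * (((r / 24 + 1 : ℕ) : ℝ) ^ 4 * (3 / 4 : ℝ) ^ (r / 24 + 1)) * (4 / 3) := by
        rw [pow_succ (3 / 4 : ℝ) (r / 24)]
        ring

variable {A : Type*} [CommGroup A] [Fintype A] [DecidableEq A]

lemma card_good_ge (hr : Large (Fintype.card A)) :
    2 ^ Fintype.card (Orb A) ≤ 2 * (good A).card := by
  classical
  set M := Fintype.card (Orb A) with hM
  set r := Fintype.card A with hrdef
  set bad : A × A × A × A → Finset (Orb A → Bool) := fun s => univ.filter (fun F : Orb A → Bool =>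
        ¬ ∃ u : A, F (orb s.1 s.2.1 u) = true ∧ F (orb u s.2.2.1 s.2.2.2) = true) with hbad
  have hb : ∀ s, ((bad s).card : ℝ) ≤ (3 / 4 : ℝ) ^ (r / 24) * 2 ^ M := by
    intro s
    obtain ⟨k, hk, hk2⟩ := card_bad_le s.1 s.2.1 s.2.2.1 s.2.2.2
    have hk3 : r / 24 ≤ k := by omega
    have hk4 : ((4 : ℝ) ^ k) * ((bad s).card : ℝ) ≤ 3 ^ k * 2 ^ M := by
      have : 4 ^ k * (bad s).card ≤ 3 ^ k * 2 ^ M := by
        convert hk2 using 3
      exact_mod_cast this
    have h4 : (0 : ℝ) < 4 ^ k := by positivity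
    have h5 : ((bad s).card : ℝ) ≤ (3 / 4 : ℝ) ^ k * 2 ^ M := by
      rw [div_pow, div_mul_eq_mul_div, le_div_iff₀ h4, mul_comm]
      exact hk4
    refine h5.trans ?_
    apply mul_le_mul_of_nonneg_right _ (by positivity)
    exact pow_le_pow_of_le_one (by norm_num) (by norm_num) hk3
  have hcover : (univ : Finset (Orb A → Bool)) ⊆ good A ∪ (univ : Finset (A × A × A × A)).biUnion bad := by
    intro F _
    rw [mem_union]
    by_cases hF : F ∈ good A
    · exact Or.inl hF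
    · right
      rw [good, mem_filter] at hF
      push Not at hF
      obtain ⟨x, y, z, w, h⟩ := hF (mem_univ _)
      rw [mem_biUnion]
      refine ⟨(x, y, z, w), mem_univ _, ?_⟩
      rw [hbad, mem_filter]
      refine ⟨mem_univ _, ?_⟩
      rintro ⟨u, hu1, hu2⟩
      exact h u hu1 hu2
  have h1 : (2 : ℝ) ^ M ≤ (good A).card + (r : ℝ) ^ 4 * ((3 / 4 : ℝ) ^ (r / 24) * 2 ^ M) := by
    have e1 : ((univ : Finset (Orb A → Bool)).card : ℝ) = 2 ^ M := by
      rw [Finset.card_univ, Fintype.card_fun, Fintype.card_bool]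
      push_cast
      rfl
    rw [← e1]
    calc ((univ : Finset (Orb A → Bool)).card : ℝ) ≤
        ((good A ∪ (univ : Finset (A × A × A × A)).biUnion bad).card : ℝ) := by
          exact_mod_cast card_le_card hcover
      _ ≤ ((good A).card : ℝ) + (((univ : Finset (A × A × A × A)).biUnion bad).card : ℝ) := by
          exact_mod_cast card_union_le _ _
      _ ≤ ((good A).card : ℝ) + ∑ s : A × A × A × A, ((bad s).card : ℝ) := by
          gcongr
          exact_mod_cast card_biUnion_le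
      _ ≤ ((good A).card : ℝ) + ∑ s : A × A × A × A, (3 / 4 : ℝ) ^ (r / 24) * 2 ^ M := by
          gcongr with s _
          exact hb s
      _ = (good A).card + (r : ℝ) ^ 4 * ((3 / 4 : ℝ) ^ (r / 24) * ((univ : Finset (Orb A → Bool)).card : ℝ)) := by
          rw [e1, sum_const, Finset.card_univ, Fintype.card_prod, Fintype.card_prod, Fintype.card_prod, nsmul_eq_mul]
          push_cast
          ring
  have h2 : (r : ℝ) ^ 4 * ((3 / 4 : ℝ) ^ (r / 24) * 2 ^ M) ≤ 1 / 2 * 2 ^ M := by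
    rw [← mul_assoc]
    exact mul_le_mul_of_nonneg_right hr (by positivity)
  have h3 : (2 : ℝ) ^ M ≤ 2 * ((good A).card : ℝ) := by linarith
  exact_mod_cast h3

end Pool.Agent.J6H88.HyperQ
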