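import Mathlib
import Pool.Agent.J6H88.HyperQ.Good

set_option autoImplicit false

namespace Pool.Agent.J6H88.HyperQ

open Finset

variable {W : Type*} [CommGroupWithZero W]

/-- the hyperaddition axioms over a commutative group with zero -/
def IsAdd (add : W → W → Set W) : Prop :=
  (∀ a b, (add a b).Nonempty) ∧
  (∀ a b, add a b = add b a) ∧
  (∀ a b c, (⋃ x ∈ add a b, add x c) = ⋃ x ∈ add b c, add a x) ∧
  (∀ a, add 0 a = {a}) ∧
  (∀ a, ∃! b, (0 : W) ∈ add a b) ∧
  (∀ a b c d, a ∈ add b c → (0 : W) ∈ add b d → c ∈ add a d) ∧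
  (∀ a b c, (fun x => a * x) '' add b c = add (a * b) (a * c))

/-- `1 - 1` is everything -/
def IsFullAdd (add : W → W → Set W) : Prop :=
  ∀ u v : W, (∀ a, u * a = a) → (0 : W) ∈ add u v → ∀ z, z ∈ add u v

/-- the hyperaddition attached to the element `-1 = ε` and the relation `F` -/
def mkAdd (ε : Wˣ) (F : Orb Wˣ → Bool) (x y : W) : Set W :=
  {z | (x = 0 ∧ z = y) ∨ (y = 0 ∧ z = x) ∨
    ∃ a b : Wˣ, x = a ∧ y = b ∧ ((z = 0 ∧ b = ε * a) ∨ ∃ c : Wˣ, z = c ∧ F (orb a b (ε * c)) = true)}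

lemma mem_mkAdd (ε : Wˣ) (F : Orb Wˣ → Bool) (x y z : W) : z ∈ mkAdd ε F x y ↔
    ((x = 0 ∧ z = y) ∨ (y = 0 ∧ z = x) ∨
    ∃ a b : Wˣ, x = a ∧ y = b ∧ ((z = 0 ∧ b = ε * a) ∨ ∃ c : Wˣ, z = c ∧ F (orb a b (ε * c)) = true)) :=
  Iff.rfl

lemma mkAdd_zero_left (ε : Wˣ) (F : Orb Wˣ → Bool) (y : W) : mkAdd ε F 0 y = {y} := by
  ext z
  rw [mem_mkAdd, Set.mem_singleton_iff]
  constructor
  · rintro (⟨-, h⟩ | ⟨h, h'⟩ | ⟨a, b, ha, -, -⟩)
    · exact h
    · rw [h', h]
    · exact absurd ha.symm a.ne_zero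
  · rintro rfl; exact Or.inl ⟨rfl, rfl⟩

lemma mkAdd_zero_right (ε : Wˣ) (F : Orb Wˣ → Bool) (x : W) : mkAdd ε F x 0 = {x} := by
  ext z
  rw [mem_mkAdd, Set.mem_singleton_iff]
  constructor
  · rintro (⟨h, h'⟩ | ⟨h, h'⟩ | ⟨a, b, -, hb, -⟩)
    · rw [h', h]
    · exact h'
    · exact absurd hb.symm b.ne_zero
  · rintro rfl; exact Or.inr (Or.inl ⟨rfl, rfl⟩)

lemma mem_mkAdd_units (ε : Wˣ) (F : Orb Wˣ → Bool) (a b : Wˣ) (z : W) :
    z ∈ mkAdd ε F (a : W) (b : W) ↔ ((z = 0 ∧ b = ε * a) ∨ ∃ c : Wˣ, z = c ∧ F (orb a b (ε * c)) = true) := by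
  rw [mem_mkAdd]
  constructor
  · rintro (⟨h, -⟩ | ⟨h, -⟩ | ⟨a', b', ha, hb, h⟩)
    · exact absurd h a.ne_zero
    · exact absurd h b.ne_zero
    · rw [Units.val_inj] at ha hb
      subst ha; subst hb
      exact h
  · intro h
    exact Or.inr (Or.inr ⟨a, b, rfl, rfl, h⟩)

lemma zero_mem_mkAdd_units (ε : Wˣ) (F : Orb Wˣ → Bool) (a b : Wˣ) :
    (0 : W) ∈ mkAdd ε F (a : W) (b : W) ↔ b = ε * a := by
  rw [mem_mkAdd_units]
  constructor
  · rintro (⟨-, h⟩ | ⟨c, hc, -⟩)
    · exact h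
    · exact absurd hc.symm c.ne_zero
  · intro h; exact Or.inl ⟨rfl, h⟩

lemma unit_mem_mkAdd_units (ε : Wˣ) (F : Orb Wˣ → Bool) (a b c : Wˣ) :
    (c : W) ∈ mkAdd ε F (a : W) (b : W) ↔ F (orb a b (ε * c)) = true := by
  rw [mem_mkAdd_units]
  constructor
  · rintro (⟨h, -⟩ | ⟨c', hc, h⟩)
    · exact absurd h c.ne_zero
    · rw [Units.val_inj] at hc
      subst hc
      exact h
  · intro h; exact Or.inr ⟨c, rfl, h⟩

variable [Fintype W] [DecidableEq W]

omit [Fintype W] [DecidableEq W] in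
lemma mkAdd_comm {ε : Wˣ} (hε : ε * ε = 1) (F : Orb Wˣ → Bool) (x y : W) :
    mkAdd ε F x y = mkAdd ε F y x := by
  rcases eq_or_ne x 0 with rfl | hx
  · rw [mkAdd_zero_left, mkAdd_zero_right]
  rcases eq_or_ne y 0 with rfl | hy
  · rw [mkAdd_zero_left, mkAdd_zero_right]
  lift x to Wˣ using hx.isUnit
  lift y to Wˣ using hy.isUnit
  have hiff : ∀ a b : Wˣ, b = ε * a → a = ε * b := by
    intro a b h
    rw [h, ← mul_assoc, hε, one_mul]
  ext z
  rw [mem_mkAdd_units, mem_mkAdd_units]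
  constructor
  · rintro (⟨h, h'⟩ | ⟨c, hc, h⟩)
    · exact Or.inl ⟨h, hiff _ _ h'⟩
    · exact Or.inr ⟨c, hc, by rw [orb_swap01]; exact h⟩
  · rintro (⟨h, h'⟩ | ⟨c, hc, h⟩)
    · exact Or.inl ⟨h, hiff _ _ h'⟩
    · exact Or.inr ⟨c, hc, by rw [orb_swap01]; exact h⟩

lemma orb_rot {A : Type*} [CommGroup A] (a b c : A) : orb a b c = orb b c a := by
  rw [orb_swap01, orb_swap12]

lemma isAdd_mkAdd {ε : Wˣ} (hε : ε * ε = 1) {F : Orb Wˣ → Bool} (hF : F ∈ good Wˣ) : IsAdd (mkAdd ε F) := by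
  have hgood : ∀ x y z w : Wˣ, ∃ u : Wˣ, F (orb x y u) = true ∧ F (orb u z w) = true := by
    simpa [good] using hF
  have hee : ∀ a : Wˣ, ε * (ε * a) = a := by
    intro a; rw [← mul_assoc, hε, one_mul]
  have hreach : ∀ a b c w : Wˣ, ∃ x : Wˣ, (x : W) ∈ mkAdd ε F (a : W) (b : W) ∧ (w : W) ∈ mkAdd ε F (x : W) (c : W) := by
    intro a b c w
    obtain ⟨u, h1, h2⟩ := hgood a b (ε * c) w
    refine ⟨ε * u, ?_, ?_⟩
    · rw [unit_mem_mkAdd_units, hee]; exact h1
    · rw [unit_mem_mkAdd_units, ← orb_mul ε, hee, hee]; exact h2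
  refine ⟨?_, mkAdd_comm hε F, ?_, mkAdd_zero_left ε F, ?_, ?_, ?_⟩
  · intro x y
    rcases eq_or_ne x 0 with rfl | hx
    · rw [mkAdd_zero_left]; exact Set.singleton_nonempty _
    rcases eq_or_ne y 0 with rfl | hy
    · rw [mkAdd_zero_right]; exact Set.singleton_nonempty _
    lift x to Wˣ using hx.isUnit
    lift y to Wˣ using hy.isUnit
    obtain ⟨u, hu, -⟩ := hreach x y 1 1
    exact ⟨_, hu⟩
  · intro x y z
    rcases eq_or_ne x 0 with rfl | hx
    · simp [mkAdd_zero_left]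
    rcases eq_or_ne y 0 with rfl | hy
    · simp [mkAdd_zero_left, mkAdd_zero_right]
    rcases eq_or_ne z 0 with rfl | hz
    · simp [mkAdd_zero_right]
    lift x to Wˣ using hx.isUnit
    lift y to Wˣ using hy.isUnit
    lift z to Wˣ using hz.isUnit
    ext w
    simp only [Set.mem_iUnion, exists_prop]
    rcases eq_or_ne w 0 with rfl | hw
    · constructor
      · rintro ⟨t, ht, h0⟩
        rcases eq_or_ne t 0 with rfl | ht0
        · rw [mkAdd_zero_left, Set.mem_singleton_iff] at h0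
          exact absurd h0.symm z.ne_zero
        lift t to Wˣ using ht0.isUnit
        rw [zero_mem_mkAdd_units] at h0
        rw [unit_mem_mkAdd_units, ← h0] at ht
        refine ⟨((ε * x : Wˣ) : W), ?_, ?_⟩
        · rw [unit_mem_mkAdd_units, hee, ← orb_rot]
          exact ht
        · rw [zero_mem_mkAdd_units]
      · rintro ⟨t, ht, h0⟩
        rcases eq_or_ne t 0 with rfl | ht0
        · rw [mkAdd_zero_right, Set.mem_singleton_iff] at h0
          exact absurd h0.symm x.ne_zero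
        lift t to Wˣ using ht0.isUnit
        rw [zero_mem_mkAdd_units] at h0
        rw [unit_mem_mkAdd_units, h0, hee] at ht
        refine ⟨((ε * z : Wˣ) : W), ?_, ?_⟩
        · rw [unit_mem_mkAdd_units, hee, orb_rot]
          exact ht
        · rw [zero_mem_mkAdd_units, hee]
    · lift w to Wˣ using hw.isUnit
      constructor
      · intro _
        obtain ⟨u, h1, h2⟩ := hreach y z x w
        exact ⟨u, h1, by rw [mkAdd_comm hε]; exact h2⟩
      · intro _
        obtain ⟨u, h1, h2⟩ := hreach x y z w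
        exact ⟨u, h1, h2⟩
  · intro x
    rcases eq_or_ne x 0 with rfl | hx
    · refine ⟨0, ?_, ?_⟩
      · simp only [mkAdd_zero_left]; rfl
      · intro y hy
        simp only [mkAdd_zero_left] at hy
        exact hy.symm
    lift x to Wˣ using hx.isUnit
    refine ⟨((ε * x : Wˣ) : W), ?_, ?_⟩
    · show (0 : W) ∈ mkAdd ε F (x : W) ((ε * x : Wˣ) : W)
      rw [zero_mem_mkAdd_units]
    · intro y hy
      rcases eq_or_ne y 0 with rfl | hy0
      · simp only [mkAdd_zero_right] at hy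
        exact absurd hy.symm x.ne_zero
      lift y to Wˣ using hy0.isUnit
      have := (zero_mem_mkAdd_units ε F x y).mp hy
      rw [this]
  · intro a b c d h1 h2
    rcases eq_or_ne b 0 with rfl | hb
    · rw [mkAdd_zero_left, Set.mem_singleton_iff] at h1 h2
      subst h1
      rw [← h2, mkAdd_zero_right]
      rfl
    lift b to Wˣ using hb.isUnit
    rcases eq_or_ne d 0 with rfl | hd
    · rw [mkAdd_zero_right, Set.mem_singleton_iff] at h2
      exact absurd h2.symm b.ne_zero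
    lift d to Wˣ using hd.isUnit
    rw [zero_mem_mkAdd_units] at h2
    subst h2
    rcases eq_or_ne c 0 with rfl | hc
    · rw [mkAdd_zero_right, Set.mem_singleton_iff] at h1
      subst h1
      rw [zero_mem_mkAdd_units]
    lift c to Wˣ using hc.isUnit
    rcases eq_or_ne a 0 with rfl | ha
    · rw [zero_mem_mkAdd_units] at h1
      rw [mkAdd_zero_left, h1]
      rfl
    lift a to Wˣ using ha.isUnit
    rw [unit_mem_mkAdd_units] at h1 ⊢
    rw [← orb_mul ε, hee, hee, orb_swap01, orb_swap12]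
    exact h1
  · intro a b c
    rcases eq_or_ne a 0 with rfl | ha
    · have hne : (mkAdd ε F b c).Nonempty := by
        rcases eq_or_ne b 0 with rfl | hb
        · rw [mkAdd_zero_left]; exact Set.singleton_nonempty _
        rcases eq_or_ne c 0 with rfl | hc
        · rw [mkAdd_zero_right]; exact Set.singleton_nonempty _
        lift b to Wˣ using hb.isUnit
        lift c to Wˣ using hc.isUnit
        obtain ⟨u, hu, -⟩ := hreach b c 1 1
        exact ⟨_, hu⟩
      simp only [zero_mul, mkAdd_zero_left]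
      exact hne.image_const 0
    rcases eq_or_ne b 0 with rfl | hb
    · simp [mkAdd_zero_left]
    rcases eq_or_ne c 0 with rfl | hc
    · simp [mkAdd_zero_right]
    lift a to Wˣ using ha.isUnit
    lift b to Wˣ using hb.isUnit
    lift c to Wˣ using hc.isUnit
    ext z
    rw [← Units.val_mul, ← Units.val_mul]
    constructor
    · rintro ⟨t, ht, rfl⟩
      simp only
      rcases eq_or_ne t 0 with rfl | ht0
      · rw [zero_mem_mkAdd_units] at ht
        rw [mul_zero, zero_mem_mkAdd_units, ht, mul_left_comm]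
      lift t to Wˣ using ht0.isUnit
      rw [unit_mem_mkAdd_units] at ht
      rw [← Units.val_mul, unit_mem_mkAdd_units, mul_left_comm ε a t, orb_mul]
      exact ht
    · intro hz
      rcases eq_or_ne z 0 with rfl | hz0
      · rw [zero_mem_mkAdd_units] at hz
        refine ⟨0, ?_, by simp⟩
        rw [zero_mem_mkAdd_units]
        rw [mul_left_comm] at hz
        exact mul_left_cancel hz
      lift z to Wˣ using hz0.isUnit
      rw [unit_mem_mkAdd_units] at hz
      refine ⟨((a⁻¹ * z : Wˣ) : W), ?_, ?_⟩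
      · rw [unit_mem_mkAdd_units, ← orb_mul a]
        have : a * (ε * (a⁻¹ * z)) = ε * z := by
          rw [mul_left_comm, mul_inv_cancel_left]
        rw [this]
        exact hz
      · simp only
        rw [← Units.val_mul, mul_inv_cancel_left]

end Pool.Agent.J6H88.HyperQ
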