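import Mathlib
import Pool.Agent.J6H88.HyperQ.Param

set_option autoImplicit false

namespace Pool.Agent.J6H88.HyperQ

open Finset

variable {W : Type*} [CommGroupWithZero W]

/-- a symmetric scaling-invariant ternary relation descends to orbits -/
lemma rel_invariant {A : Type*} [CommGroup A] (S : A → A → A → Prop)
    (h01 : ∀ a b c, S a b c → S b a c) (h12 : ∀ a b c, S a b c → S a c b)
    (hm : ∀ t a b c, S a b c → S (t * a) (t * b) (t * c)) (v w : Fin 3 → A)
    (hvw : (tripSetoid A).r v w) (hS : S (v 0) (v 1) (v 2)) : S (w 0) (w 1) (w 2) := by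
  obtain ⟨σ, t, h⟩ := hvw
  rw [h 0, h 1, h 2]
  apply hm
  have e01 : σ 0 ≠ σ 1 := fun h => absurd (σ.injective h) (by decide)
  have e02 : σ 0 ≠ σ 2 := fun h => absurd (σ.injective h) (by decide)
  have e12 : σ 1 ≠ σ 2 := fun h => absurd (σ.injective h) (by decide)
  generalize σ 0 = i at *
  generalize σ 1 = j at *
  generalize σ 2 = k at *
  have hperm : ∀ i j k : Fin 3, i ≠ j → i ≠ k → j ≠ k → S (v i) (v j) (v k) := by
    intro i j k hij hik hjk
    fin_cases i <;> fin_cases j <;> fin_cases k <;> simp at hij hik hjk ⊢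
    · exact hS
    · exact h12 _ _ _ hS
    · exact h01 _ _ _ hS
    · exact h12 _ _ _ (h01 _ _ _ hS)
    · exact h01 _ _ _ (h12 _ _ _ hS)
    · exact h01 _ _ _ (h12 _ _ _ (h01 _ _ _ hS))
  exact hperm i j k e01 e02 e12

variable [Fintype W] [DecidableEq W]

/-- every hyperaddition with `1 - 1` everything comes from a forced relation -/
lemma exists_mkAdd_of_isAdd {add : W → W → Set W} (h : IsAdd add) (hfull : IsFullAdd add) :
    ∃ ε : Wˣ, ∃ F : Orb Wˣ → Bool, ε * ε = 1 ∧ F ∈ forced ε ∧ add = mkAdd ε F := by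
  classical
  obtain ⟨hne, hcomm, hassoc, hzero, hneg, hrev, hdist⟩ := h
  have hzero' : ∀ a, add a 0 = {a} := fun a => by rw [hcomm, hzero]
  obtain ⟨e, he, hu⟩ := hneg 1
  have he0 : e ≠ 0 := by
    rintro rfl
    simp only [hzero'] at he
    exact one_ne_zero (Set.mem_singleton_iff.mp he).symm
  lift e to Wˣ using he0.isUnit
  have hmulmem : ∀ (a b c x : W), x ∈ add b c → a * x ∈ add (a * b) (a * c) := by
    intro a b c x hx
    rw [← hdist]
    exact ⟨x, hx, rfl⟩
  have he' : (0 : W) ∈ add 1 (e : W) := he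
  have hee : e * e = 1 := by
    have h1 := hmulmem (e : W) 1 e 0 he'
    rw [mul_zero, mul_one] at h1
    obtain ⟨b, hb, hbu⟩ := hneg (e : W)
    have h2 : (e : W) * e = b := hbu _ h1
    have h3 : (1 : W) = b := hbu _ (by rw [hcomm] at he'; exact he')
    have h4 : (e : W) * e = 1 := h2.trans h3.symm
    exact_mod_cast h4
  have heeW : ∀ x : W, (e : W) * (e * x) = x := by
    intro x
    rw [← mul_assoc]
    have : (e : W) * e = 1 := by exact_mod_cast hee
    rw [this, one_mul]
  have hnegb : ∀ a : W, (0 : W) ∈ add a (a * e) := by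
    intro a
    have := hmulmem a 1 e 0 he'
    simpa using this
  -- the relation
  set S : Wˣ → Wˣ → Wˣ → Prop := fun a b c => ((e : W) * c) ∈ add (a : W) (b : W) with hS
  have S01 : ∀ a b c, S a b c → S b a c := by
    intro a b c h
    simp only [hS] at h ⊢
    rw [hcomm]; exact h
  have Sm : ∀ t a b c, S a b c → S (t * a) (t * b) (t * c) := by
    intro t a b c h
    simp only [hS] at h ⊢
    have := hmulmem (t : W) _ _ _ h
    rw [mul_left_comm] at this
    push_cast
    exact this
  have S12 : ∀ a b c, S a b c → S a c b := by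
    intro a b c h
    simp only [hS] at h ⊢
    have h1 := hrev _ _ _ _ h (hnegb a)
    have h2 := hmulmem (e : W) _ _ _ h1
    rw [heeW, mul_comm (a : W) e, heeW, hcomm] at h2
    exact h2
  -- descend to the orbits
  have hlift : ∀ v w : Fin 3 → Wˣ, (tripSetoid Wˣ).r v w →
      decide (S (v 0) (v 1) (v 2)) = decide (S (w 0) (w 1) (w 2)) := by
    intro v w hvw
    rw [decide_eq_decide]
    constructor
    · exact rel_invariant S S01 S12 Sm v w hvw
    · exact rel_invariant S S01 S12 Sm w v ((tripSetoid Wˣ).symm hvw)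
  set F : Orb Wˣ → Bool := Quotient.lift (fun v => decide (S (v 0) (v 1) (v 2))) hlift with hFdef
  have hF : ∀ a b c : Wˣ, F (orb a b c) = true ↔ ((e : W) * c) ∈ add (a : W) (b : W) := by
    intro a b c
    rw [hFdef]
    simp only [orb, Quotient.lift_mk]
    rw [decide_eq_true_iff]
    rfl
  refine ⟨e, F, hee, ?_, ?_⟩
  · rw [forced, mem_filter]
    refine ⟨mem_univ _, ?_⟩
    intro w
    rw [hF]
    apply hfull
    · intro a; simp
    · simpa using he'
  · funext x y
    rcases eq_or_ne x 0 with rfl | hx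
    · rw [mkAdd_zero_left, hzero]
    rcases eq_or_ne y 0 with rfl | hy
    · rw [mkAdd_zero_right, hzero']
    lift x to Wˣ using hx.isUnit
    lift y to Wˣ using hy.isUnit
    ext z
    rcases eq_or_ne z 0 with rfl | hz
    · rw [zero_mem_mkAdd_units]
      constructor
      · intro h0
        obtain ⟨b, hb, hbu⟩ := hneg (x : W)
        have h1 : (y : W) = b := hbu _ h0
        have h2 : (x : W) * e = b := hbu _ (hnegb x)
        have h3 : (y : W) = ((e * x : Wˣ) : W) := by
          rw [h1, ← h2, mul_comm]; rfl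
        exact Units.val_inj.mp h3
      · rintro rfl
        have := hnegb (x : W)
        rw [mul_comm] at this
        push_cast
        exact this
    · lift z to Wˣ using hz.isUnit
      rw [unit_mem_mkAdd_units, hF]
      push_cast
      rw [heeW]

/-- injectivity of the parametrisation -/
lemma mkAdd_injective {ε ε' : Wˣ} {F F' : Orb Wˣ → Bool} (h : mkAdd ε F = mkAdd ε' F') : ε = ε' ∧ F = F' := by
  have h1 : ε = ε' := by
    have : (0 : W) ∈ mkAdd ε F ((1 : Wˣ) : W) (ε : W) := by
      rw [zero_mem_mkAdd_units, mul_one]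
    rw [h, zero_mem_mkAdd_units, mul_one] at this
    exact this
  subst h1
  refine ⟨rfl, ?_⟩
  funext o
  induction o using Quotient.inductionOn with
  | h v =>
    have hv : Quotient.mk (tripSetoid Wˣ) v = orb (v 0) (v 1) (v 2) := by
      unfold orb
      congr 1
      funext i
      fin_cases i <;> rfl
    rw [hv]
    have h2 : ((ε⁻¹ * v 2 : Wˣ) : W) ∈ mkAdd ε F (v 0 : W) (v 1 : W) ↔
        ((ε⁻¹ * v 2 : Wˣ) : W) ∈ mkAdd ε F' (v 0 : W) (v 1 : W) := by rw [h]
    rw [unit_mem_mkAdd_units, unit_mem_mkAdd_units, mul_inv_cancel_left] at h2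
    exact Bool.eq_iff_iff.mpr h2

/-- **Main comparison for one multiplication table.** -/
theorem ncard_full_le (hr : Large (Fintype.card Wˣ)) :
    Set.ncard {add : W → W → Set W | IsAdd add ∧ IsFullAdd add} * 2 ^ (Fintype.card Wˣ / 6) ≤
      2 * Set.ncard {add : W → W → Set W | IsAdd add} := by
  classical
  set E : Finset Wˣ := univ.filter (fun ε => ε * ε = 1) with hE
  set T' : Finset ((_ : Wˣ) × (Orb Wˣ → Bool)) := E.sigma (fun ε => forced ε) with hT'
  set T : Finset ((_ : Wˣ) × (Orb Wˣ → Bool)) := E.sigma (fun _ => good Wˣ) with hT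
  have h1 : Set.ncard {add : W → W → Set W | IsAdd add ∧ IsFullAdd add} ≤ T'.card := by
    have hsub : {add : W → W → Set W | IsAdd add ∧ IsFullAdd add} ⊆
        ((T'.image (fun s => mkAdd s.1 s.2) : Finset (W → W → Set W)) : Set (W → W → Set W)) := by
      intro add hadd
      obtain ⟨ε, F, h1, h2, h3⟩ := exists_mkAdd_of_isAdd hadd.1 hadd.2
      rw [Finset.mem_coe, mem_image]
      refine ⟨⟨ε, F⟩, ?_, h3.symm⟩
      rw [hT', mem_sigma]
      exact ⟨by simp [hE, h1], h2⟩
    calc _ ≤ Set.ncard ((T'.image (fun s => mkAdd s.1 s.2) : Finset (W → W → Set W)) : Set (W → W → Set W)) :=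
          Set.ncard_le_ncard hsub (Finset.finite_toSet _)
      _ = (T'.image (fun s => mkAdd s.1 s.2)).card := Set.ncard_coe_finset _
      _ ≤ T'.card := card_image_le
  have h2 : T.card ≤ Set.ncard {add : W → W → Set W | IsAdd add} := by
    have hinj : Set.InjOn (fun s : ((_ : Wˣ) × (Orb Wˣ → Bool)) => (mkAdd s.1 s.2 : W → W → Set W)) T := by
      rintro ⟨ε, F⟩ _ ⟨ε', F'⟩ _ h
      obtain ⟨h1, h2⟩ := mkAdd_injective h
      subst h1; subst h2; rfl
    rw [← Finset.card_image_of_injOn hinj, ← Set.ncard_coe_finset]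
    apply Set.ncard_le_ncard _ (Set.toFinite _)
    intro add hadd
    rw [Finset.mem_coe, mem_image] at hadd
    obtain ⟨⟨ε, F⟩, hs, rfl⟩ := hadd
    rw [hT, mem_sigma] at hs
    simp only [hE, mem_filter, mem_univ, true_and] at hs
    exact isAdd_mkAdd hs.1 hs.2
  have h3 : T'.card * 2 ^ (Fintype.card Wˣ / 6) ≤ 2 * T.card := by
    rw [hT', hT, card_sigma, card_sigma, sum_mul, mul_sum]
    apply sum_le_sum
    intro ε _
    obtain ⟨k, hk1, hk2⟩ := card_forced_le ε
    have hk3 : Fintype.card Wˣ / 6 ≤ k := by omega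
    calc (forced ε).card * 2 ^ (Fintype.card Wˣ / 6) ≤ (forced ε).card * 2 ^ k :=
          Nat.mul_le_mul_left _ (Nat.pow_le_pow_right (by norm_num) hk3)
      _ = 2 ^ Fintype.card (Orb Wˣ) := hk2
      _ ≤ 2 * (good Wˣ).card := card_good_ge hr
  calc _ ≤ T'.card * 2 ^ (Fintype.card Wˣ / 6) := Nat.mul_le_mul_right _ h1
    _ ≤ 2 * T.card := h3
    _ ≤ _ := Nat.mul_le_mul_left _ h2

/-- Lower bound for the number of hyperadditions. -/
theorem two_pow_le_ncard (hr : Large (Fintype.card Wˣ)) :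
    2 ^ ((Fintype.card Wˣ) ^ 2 / 6) ≤ 2 * Set.ncard {add : W → W → Set W | IsAdd add} := by
  classical
  have h1 : (good Wˣ).card ≤ Set.ncard {add : W → W → Set W | IsAdd add} := by
    have hinj : Set.InjOn (fun F : (Orb Wˣ → Bool) => (mkAdd (1 : Wˣ) F : W → W → Set W)) (good Wˣ) := by
      intro F _ F' _ h
      exact (mkAdd_injective h).2
    rw [← Finset.card_image_of_injOn hinj, ← Set.ncard_coe_finset]
    apply Set.ncard_le_ncard _ (Set.toFinite _)
    intro add hadd
    rw [Finset.mem_coe, mem_image] at hadd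
    obtain ⟨F, hF, rfl⟩ := hadd
    exact isAdd_mkAdd (by simp) hF
  have h2 := card_good_ge hr
  have h3 := card_orb_ge (A := Wˣ)
  have h4 : (Fintype.card Wˣ) ^ 2 / 6 ≤ Fintype.card (Orb Wˣ) := by omega
  calc 2 ^ ((Fintype.card Wˣ) ^ 2 / 6) ≤ 2 ^ Fintype.card (Orb Wˣ) := Nat.pow_le_pow_right (by norm_num) h4
    _ ≤ 2 * (good Wˣ).card := h2
    _ ≤ _ := Nat.mul_le_mul_left _ h1

end Pool.Agent.J6H88.HyperQ
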