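import Mathlib

set_option autoImplicit false

namespace Pool.Agent.J6H88.HyperQ

open Finset

variable {K : Type*} [Field K] [Fintype K] [DecidableEq K]

/-- Number of `x ∈ S` with `m x + b ∈ S`. -/
def lineCount (S : Finset K) (p : K × K) : ℤ :=
  ∑ x ∈ S, if p.1 * x + p.2 ∈ S then 1 else 0

lemma sum_ind_one (S : Finset K) (x : K) :
    ∑ p : K × K, (if p.1 * x + p.2 ∈ S then (1 : ℤ) else 0) = (Fintype.card K : ℤ) * (S.card : ℤ) := by
  rw [Fintype.sum_prod_type]
  have : ∀ m : K, ∑ b : K, (if m * x + b ∈ S then (1 : ℤ) else 0) = (S.card : ℤ) := by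
    intro m
    rw [← Equiv.sum_comp (Equiv.subLeft (0 : K)).symm]
    rw [← Equiv.sum_comp (Equiv.subLeft (m * x))]
    simp
  simp only [this]
  simp

lemma sum_ind_two (S : Finset K) (x y : K) (hxy : x ≠ y) :
    ∑ p : K × K, (if p.1 * x + p.2 ∈ S then (1 : ℤ) else 0) * (if p.1 * y + p.2 ∈ S then (1 : ℤ) else 0)
      = (S.card : ℤ) * (S.card : ℤ) := by
  have hd : x - y ≠ 0 := sub_ne_zero.mpr hxy
  let e : K × K ≃ K × K :=
    { toFun := fun p => (p.1 * x + p.2, p.1 * y + p.2)
      invFun := fun w => ((w.1 - w.2) / (x - y), w.1 - (w.1 - w.2) / (x - y) * x)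
      left_inv := by
        rintro ⟨m, b⟩
        ext
        · simp only
          field_simp
          ring
        · simp only
          have : (m * x + b - (m * y + b)) / (x - y) = m := by field_simp; ring
          rw [this]; ring
      right_inv := by
        rintro ⟨u, v⟩
        ext
        · simp only
          ring
        · simp only
          field_simp
          ring }
  have h := Equiv.sum_comp e (fun w : K × K => (if w.1 ∈ S then (1 : ℤ) else 0) * (if w.2 ∈ S then (1 : ℤ) else 0))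
  have h2 : ∑ p : K × K, (if p.1 * x + p.2 ∈ S then (1 : ℤ) else 0) * (if p.1 * y + p.2 ∈ S then (1 : ℤ) else 0)
      = ∑ w : K × K, (if w.1 ∈ S then (1 : ℤ) else 0) * (if w.2 ∈ S then (1 : ℤ) else 0) := by
    rw [← h]
    rfl
  rw [h2, Fintype.sum_prod_type]
  have h3 : ∀ u : K, ∑ v : K, (if u ∈ S then (1 : ℤ) else 0) * (if v ∈ S then (1 : ℤ) else 0)
      = (if u ∈ S then (1 : ℤ) else 0) * (S.card : ℤ) := by
    intro u
    rw [← Finset.mul_sum]
    simp
  rw [Finset.sum_congr rfl (fun u _ => h3 u), ← Finset.sum_mul]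
  simp

lemma sum_lineCount (S : Finset K) :
    ∑ p : K × K, lineCount S p = (Fintype.card K : ℤ) * (S.card : ℤ) ^ 2 := by
  unfold lineCount
  rw [Finset.sum_comm]
  simp only [sum_ind_one]
  simp
  ring

lemma sum_lineCount_sq (S : Finset K) :
    ∑ p : K × K, (lineCount S p) ^ 2 =
      (Fintype.card K : ℤ) * (S.card : ℤ) ^ 2 + (S.card : ℤ) ^ 4 - (S.card : ℤ) ^ 3 := by
  have h1 : ∀ p : K × K, (lineCount S p) ^ 2 =
      ∑ x ∈ S, ∑ y ∈ S, (if p.1 * x + p.2 ∈ S then (1 : ℤ) else 0) * (if p.1 * y + p.2 ∈ S then (1 : ℤ) else 0) := by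
    intro p
    rw [sq, lineCount, Finset.sum_mul_sum]
  simp only [h1]
  rw [Finset.sum_comm]
  have h2 : ∀ x ∈ S, ∑ p : K × K, ∑ y ∈ S, (if p.1 * x + p.2 ∈ S then (1 : ℤ) else 0) *
      (if p.1 * y + p.2 ∈ S then (1 : ℤ) else 0) =
      (Fintype.card K : ℤ) * (S.card : ℤ) + ((S.card : ℤ) - 1) * (S.card : ℤ) ^ 2 := by
    intro x hx
    rw [Finset.sum_comm]
    rw [← Finset.add_sum_erase S _ hx]
    congr 1
    · rw [← sum_ind_one S x]
      apply Finset.sum_congr rfl
      intro p _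
      split_ifs <;> simp
    · rw [Finset.sum_congr rfl (g := fun _ => (S.card : ℤ) ^ 2)]
      · rw [Finset.sum_const, Finset.card_erase_of_mem hx]
        have : 1 ≤ S.card := Finset.card_pos.mpr ⟨x, hx⟩
        rw [nsmul_eq_mul]
        push_cast [Nat.cast_sub this]
        ring
      · intro y hy
        rw [sum_ind_two S x y (Finset.ne_of_mem_erase hy).symm]
        ring
  rw [Finset.sum_congr rfl h2, Finset.sum_const, nsmul_eq_mul]
  ring

/-- If `G` is a large multiplicative subgroup of a finite field then `G - G` meets every coset. -/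
theorem sub_meets_of_large (G : Subgroup Kˣ)
    (hG : (Fintype.card K) ^ 3 ≤ (Nat.card G) ^ 4) (a : K) (ha : a ≠ 0) :
    ∃ g ∈ G, ∃ h ∈ G, ∃ l ∈ G, (g : K) - (h : K) = a * (l : K) := by
  classical
  by_contra hcon
  push Not at hcon
  set S : Finset K := Finset.univ.filter (fun x => ∃ g ∈ G, (g : K) = x) with hS
  have hmem : ∀ x, x ∈ S ↔ ∃ g ∈ G, (g : K) = x := by intro x; simp [hS]
  have hcard : S.card = Nat.card G := by
    have h1 : (S : Set K) = (fun g : Kˣ => (g : K)) '' (G : Set Kˣ) := by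
      ext x
      rw [Finset.mem_coe, hmem]
      simp
    have h2 : S.card = Set.ncard (S : Set K) := (Set.ncard_coe_finset S).symm
    rw [h2, h1, Set.ncard_image_of_injective _ Units.val_injective]
    rfl
  set q : ℤ := (Fintype.card K : ℤ) with hq
  set n : ℤ := (S.card : ℤ) with hn
  have hsum : ∑ p : K × K, (q * lineCount S p - n ^ 2) ^ 2 = q ^ 2 * n ^ 2 * (q - n) := by
    have : ∀ p : K × K, (q * lineCount S p - n ^ 2) ^ 2 =
        q ^ 2 * (lineCount S p) ^ 2 - 2 * q * n ^ 2 * lineCount S p + n ^ 4 := by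
      intro p; ring
    simp only [this]
    rw [Finset.sum_add_distrib, Finset.sum_sub_distrib, ← Finset.mul_sum, ← Finset.mul_sum,
      sum_lineCount, sum_lineCount_sq, Finset.sum_const, nsmul_eq_mul, Finset.card_univ, Fintype.card_prod]
    push_cast
    rw [← hq, ← hn]
    ring
  set Z : Finset (K × K) := S ×ˢ (S.image (fun x => a * x)) with hZ
  have hZcard : (Z.card : ℤ) = n ^ 2 := by
    rw [hZ, Finset.card_product, Finset.card_image_of_injective]
    · push_cast; ring
    · intro x y h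
      exact mul_left_cancel₀ ha h
  have hZzero : ∀ p ∈ Z, (q * lineCount S p - n ^ 2) ^ 2 = n ^ 4 := by
    rintro ⟨m, b⟩ hp
    rw [hZ, Finset.mem_product] at hp
    obtain ⟨hm, hb⟩ := hp
    simp only at hm hb
    obtain ⟨gm, hgm, rfl⟩ := (hmem m).mp hm
    obtain ⟨l', hl', rfl⟩ := Finset.mem_image.mp hb
    obtain ⟨l, hl, rfl⟩ := (hmem l').mp hl'
    have : lineCount S ((gm : K), a * (l : K)) = 0 := by
      unfold lineCount
      apply Finset.sum_eq_zero
      intro x hx
      obtain ⟨h, hh, rfl⟩ := (hmem x).mp hx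
      rw [if_neg]
      intro hc
      obtain ⟨g, hg, hgeq⟩ := (hmem _).mp hc
      apply hcon g hg (gm * h) (G.mul_mem hgm hh) l hl
      rw [hgeq]
      push_cast
      ring
    rw [this]
    ring
  have hle : n ^ 2 * n ^ 4 ≤ q ^ 2 * n ^ 2 * (q - n) := by
    rw [← hsum]
    calc n ^ 2 * n ^ 4 = ∑ p ∈ Z, n ^ 4 := by
          rw [Finset.sum_const, nsmul_eq_mul, hZcard]
      _ = ∑ p ∈ Z, (q * lineCount S p - n ^ 2) ^ 2 := by
          apply Finset.sum_congr rfl
          intro p hp
          rw [hZzero p hp]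
      _ ≤ ∑ p : K × K, (q * lineCount S p - n ^ 2) ^ 2 := by
          apply Finset.sum_le_sum_of_subset_of_nonneg (Finset.subset_univ _)
          intro p _ _
          positivity
  have hnpos : 0 < n := by
    rw [hn]
    have : (1 : K) ∈ S := (hmem 1).mpr ⟨1, G.one_mem, rfl⟩
    exact_mod_cast Finset.card_pos.mpr ⟨1, this⟩
  have hqpos : 0 < q := by
    rw [hq]
    exact_mod_cast Fintype.card_pos
  have hG' : q ^ 3 ≤ n ^ 4 := by
    rw [hq, hn, hcard]
    exact_mod_cast hG
  have h1 : n ^ 2 * n ^ 4 ≤ n ^ 2 * (q ^ 2 * (q - n)) := by linarith [hle]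
  have h2 : n ^ 4 ≤ q ^ 2 * (q - n) := le_of_mul_le_mul_left h1 (by positivity)
  nlinarith [mul_pos (pow_pos hqpos 2) hnpos]

end Pool.Agent.J6H88.HyperQ
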