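import Mathlib

set_option autoImplicit false

namespace Pool.Agent.J6H88.HyperQ

/-- A finite Ramsey statement: for every finite colouring of ordered pairs of an infinite set and every
`n` there are `n` distinct points such that the colour of a pair depends only on its smaller element. -/
lemma ramsey_aux {K C : Type*} [Finite C] (col : K → K → C) :
    ∀ (n : ℕ) (S : Set K), S.Infinite → ∃ (x : Fin n → K) (c : Fin n → C),
      (∀ i, x i ∈ S) ∧ ∀ i j, i < j → x i ≠ x j ∧ col (x i) (x j) = c i := by
  intro n
  induction n with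
  | zero =>
    intro S _
    exact ⟨fun i => i.elim0, fun i => i.elim0, fun i => i.elim0, fun i => i.elim0⟩
  | succ n ih =>
    intro S hS
    obtain ⟨x0, hx0⟩ := hS.nonempty
    have hS' : (S \ {x0}).Infinite := hS.sdiff (Set.finite_singleton x0)
    have : Infinite ↥(S \ {x0}) := hS'.to_subtype
    obtain ⟨c0, hc0⟩ := Finite.exists_infinite_fiber (fun y : ↥(S \ {x0}) => col x0 y)
    set S2 : Set K := {y | y ∈ S \ {x0} ∧ col x0 y = c0} with hS2
    have hinf : S2.Infinite := by
      have h1 : ((fun y : ↥(S \ {x0}) => (y : K)) '' ((fun y : ↥(S \ {x0}) => col x0 y) ⁻¹' {c0})).Infinite := by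
        apply Set.Infinite.image
        · exact Subtype.val_injective.injOn
        · exact Set.infinite_coe_iff.mp hc0
      refine h1.mono ?_
      rintro y ⟨z, hz, rfl⟩
      exact ⟨z.2, hz⟩
    obtain ⟨x, c, hx, hc⟩ := ih S2 hinf
    refine ⟨Fin.cons x0 x, Fin.cons c0 c, ?_, ?_⟩
    · intro i
      refine Fin.cases ?_ (fun i => ?_) i
      · simpa using hx0
      · simpa using (hx i).1.1
    · intro i j
      refine Fin.cases ?_ (fun i => ?_) i
      · refine Fin.cases ?_ (fun j => ?_) j
        · intro h; exact absurd h (lt_irrefl _)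
        · intro _
          simp only [Fin.cons_zero, Fin.cons_succ]
          refine ⟨?_, (hx j).2⟩
          intro h
          exact (hx j).1.2 (by rw [← h]; rfl)
      · refine Fin.cases ?_ (fun j => ?_) j
        · intro h; exact absurd h (Fin.not_lt_zero _)
        · intro h
          simp only [Fin.cons_succ]
          exact hc i j (Fin.succ_lt_succ_iff.mp h)

/-- Finite Ramsey theorem in the form needed: arbitrarily long monochromatic chains. -/
lemma ramsey_mono {K C : Type*} [Finite C] [Infinite K] (col : K → K → C) (N : ℕ) :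
    ∃ (d : C) (x : Fin N → K), ∀ i j, i < j → x i ≠ x j ∧ col (x i) (x j) = d := by
  classical
  have := Fintype.ofFinite C
  obtain ⟨x, c, -, hc⟩ := ramsey_aux col (Fintype.card C * N + 1) Set.univ Set.infinite_univ
  have hpig : ∃ d ∈ (Finset.univ : Finset C), N ≤ (Finset.univ.filter (fun i => c i = d)).card := by
    apply Finset.exists_le_card_fiber_of_mul_le_card_of_maps_to (f := c)
    · intro a _; exact Finset.mem_univ _
    · obtain ⟨⟩ := isEmpty_or_nonempty C
      · exfalso
        exact IsEmpty.false (c 0)
      · exact Finset.univ_nonempty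
    · simp
  obtain ⟨d, -, hd⟩ := hpig
  obtain ⟨T, hT, hTc⟩ := Finset.exists_subset_card_eq hd
  refine ⟨d, fun i => x (T.orderEmbOfFin hTc i), ?_⟩
  intro i j hij
  have h := hc (T.orderEmbOfFin hTc i) (T.orderEmbOfFin hTc j) ((T.orderEmbOfFin hTc).lt_iff_lt.mpr hij)
  refine ⟨h.1, h.2.trans ?_⟩
  have := hT (T.orderEmbOfFin_mem hTc i)
  simpa using this

/-- **Bergelson-Shapiro, Turnwald.** If `G` has finitely many cosets in an infinite field `K` (classified by `f`),
then every class of `K` meets `G - G`. -/
theorem sub_eq_univ_of_infinite {K : Type*} [Field K] [Infinite K] {n : ℕ} (G : Subgroup Kˣ)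
    (f : K → Fin n) (hf : ∀ x y, f x = f y ↔ ∃ g ∈ G, y = x * (g : K)) (a : K) :
    ∃ g ∈ G, ∃ h ∈ G, f a = f ((g : K) - (h : K)) := by
  classical
  by_contra hcon
  push Not at hcon
  have ha : a ≠ 0 := by
    rintro rfl
    exact hcon 1 G.one_mem 1 G.one_mem (by simp)
  -- multiplicativity of classes
  have hmul : ∀ x y z : K, f x = f y → f (x * z) = f (y * z) := by
    intro x y z h
    obtain ⟨g, hg, rfl⟩ := (hf _ _).mp h
    exact (hf _ _).mpr ⟨g, hg, by ring⟩
  have key : ∀ x y : K, x ≠ 0 → f x = f y → f (x - y) ≠ f (x * a) := by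
    intro x y hx hxy h
    obtain ⟨g, hg, rfl⟩ := (hf _ _).mp hxy
    have h1 := hmul _ _ x⁻¹ h
    have e1 : (x - x * (g : K)) * x⁻¹ = ((1 : Kˣ) : K) - (g : K) := by
      field_simp
      simp
    have e2 : x * a * x⁻¹ = a := by field_simp
    rw [e1, e2] at h1
    exact hcon 1 G.one_mem g hg h1.symm
  -- long chains with all differences in a prescribed class
  have chain : ∀ (b : K), b ≠ 0 → ∀ N : ℕ, ∃ x : Fin N → K, ∀ i j, i < j → f (x j - x i) = f b := by
    intro b hb N
    obtain ⟨d, x, hx⟩ := ramsey_mono (fun u v : K => f (v - u)) N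
    rcases Nat.lt_or_ge 1 N with hN | hN
    · have h01 := hx ⟨0, by omega⟩ ⟨1, hN⟩ (by simp [Fin.lt_def])
      set e : K := x ⟨1, hN⟩ - x ⟨0, by omega⟩ with he
      have he0 : e ≠ 0 := by
        rw [he]; exact sub_ne_zero.mpr h01.1.symm
      refine ⟨fun i => x i * (b / e), ?_⟩
      intro i j hij
      have h2 : f (x j - x i) = f e := (hx i j hij).2.trans h01.2.symm
      have h3 := hmul _ _ (b / e) h2
      have e1 : (x j - x i) * (b / e) = x j * (b / e) - x i * (b / e) := by ring
      have e2 : e * (b / e) = b := by field_simp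
      rw [e1, e2] at h3
      exact h3
    · refine ⟨fun _ => 0, ?_⟩
      intro i j hij
      exfalso
      have h1 := i.2
      have h2 := j.2
      have h3 : (i : ℕ) < (j : ℕ) := hij
      omega
  -- no finite union of classes contains all translates of a finite set
  have main : ∀ T : Finset (Fin n), f 0 ∉ T → ∃ F : Finset K, ∀ y : K, ∃ φ ∈ F, f (y - φ) ∉ T := by
    intro T
    induction T using Finset.induction_on with
    | empty =>
      intro _
      exact ⟨{0}, fun y => ⟨0, by simp, by simp⟩⟩
    | insert k T hk ih =>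
      intro h0
      have h0T : f 0 ∉ T := fun h => h0 (Finset.mem_insert_of_mem h)
      have h0k : f 0 ≠ k := fun h => h0 (h ▸ Finset.mem_insert_self _ _)
      obtain ⟨F, hF⟩ := ih h0T
      by_cases hck : ∃ c : K, f c = k
      · obtain ⟨c, hc⟩ := hck
        have hc0 : c ≠ 0 := by
          rintro rfl
          exact h0k hc
        obtain ⟨x, hx⟩ := chain (c * a) (mul_ne_zero hc0 ha) (F.card + 1)
        refine ⟨Finset.image₂ (fun i φ => x i + φ) Finset.univ F, ?_⟩
        intro y
        by_contra hy
        push Not at hy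
        have hφ : ∀ i : Fin (F.card + 1), ∃ φ ∈ F, f (y - (x i + φ)) = k := by
          intro i
          obtain ⟨φ, hφF, hφ⟩ := hF (y - x i)
          refine ⟨φ, hφF, ?_⟩
          have h1 := hy (x i + φ) (Finset.mem_image₂_of_mem (Finset.mem_univ i) hφF)
          have e1 : y - (x i + φ) = y - x i - φ := by ring
          rw [e1] at h1 ⊢
          rcases Finset.mem_insert.mp h1 with h2 | h2
          · exact h2
          · exact absurd h2 hφ
        choose φ hφF hφk using hφ
        obtain ⟨i, -, j, -, hij, hφij⟩ := Finset.exists_ne_map_eq_of_card_lt_of_maps_to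
          (s := (Finset.univ : Finset (Fin (F.card + 1)))) (t := F) (f := φ) (by simp)
          (fun i _ => hφF i)
        -- wlog i < j
        have gen : ∀ i j : Fin (F.card + 1), i < j → φ i = φ j → False := by
          intro i j hlt hφij
          have hi := hφk i
          have hj := hφk j
          rw [← hφij] at hj
          have hne : y - (x i + φ i) ≠ 0 := by
            intro h
            rw [h] at hi
            exact h0k hi
          have h1 := key _ _ hne (hi.trans hj.symm)
          apply h1
          have e1 : y - (x i + φ i) - (y - (x j + φ i)) = x j - x i := by ring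
          rw [e1, hx i j hlt]
          exact hmul _ _ a (hc.trans hi.symm)
        rcases lt_or_gt_of_ne hij with h | h
        · exact gen i j h hφij
        · exact gen j i h hφij.symm
      · refine ⟨F, fun y => ?_⟩
        obtain ⟨φ, hφF, hφ⟩ := hF y
        refine ⟨φ, hφF, ?_⟩
        intro h
        rcases Finset.mem_insert.mp h with h2 | h2
        · exact hck ⟨_, h2⟩
        · exact hφ h2
  obtain ⟨F, hF⟩ := main (Finset.univ.erase (f 0)) (by simp)
  obtain ⟨y, hy⟩ := Infinite.exists_notMem_finset F
  obtain ⟨φ, hφF, hφ⟩ := hF y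
  apply hφ
  rw [Finset.mem_erase]
  refine ⟨?_, Finset.mem_univ _⟩
  intro h
  obtain ⟨g, -, hg⟩ := (hf 0 (y - φ)).mp h.symm
  rw [zero_mul, sub_eq_zero] at hg
  exact hy (hg ▸ hφF)

end Pool.Agent.J6H88.HyperQ
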