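import Mathlib
import Pool.Agent.J6H88.HyperQ.Infinite
import Pool.Agent.J6H88.HyperQ.Finite

set_option autoImplicit false

namespace Pool.Agent.J6H88.HyperQ

/-- Pairs (multiplication, hyperaddition) on `Fin (r+1)`. -/
abbrev Str (r : ℕ) : Type :=
  (Fin (r+1) → Fin (r+1) → Fin (r+1)) × (Fin (r+1) → Fin (r+1) → Set (Fin (r+1)))

/-- `p` is the quotient hyperfield `K/G` through the classifying map `f`. -/
def Rep {K : Type} [Field K] (G : Subgroup Kˣ) {r : ℕ} (f : K → Fin (r+1)) (p : Str r) : Prop :=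
  Function.Surjective f ∧ f 0 = 0 ∧
  (∀ x y : K, f x = f y ↔ ∃ g ∈ G, y = x * (g : K)) ∧
  (∀ x y : K, f (x * y) = p.1 (f x) (f y)) ∧
  (∀ x y : K, p.2 (f x) (f y) = {z | ∃ g ∈ G, ∃ h ∈ G, z = f (x * (g : K) + y * (h : K))})

/-- quotient hyperfields -/
def IsQuot {r : ℕ} (p : Str r) : Prop :=
  ∃ (K : Type) (_ : Field K), ∃ G : Subgroup Kˣ, ∃ f : K → Fin (r+1), Rep G f p

/-- hyperfields -/
def IsHyper {r : ℕ} (p : Str r) : Prop :=
  (∃ u : Fin (r+1), u ≠ 0 ∧ ∀ a, p.1 u a = a) ∧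
  (∀ a b, p.1 a b = p.1 b a) ∧
  (∀ a b c, p.1 (p.1 a b) c = p.1 a (p.1 b c)) ∧
  (∀ a, p.1 0 a = 0) ∧
  (∀ a b, a ≠ 0 → b ≠ 0 → p.1 a b ≠ 0) ∧
  (∀ a, a ≠ 0 → ∃ b, ∀ c, p.1 (p.1 a b) c = c) ∧
  (∀ a b, (p.2 a b).Nonempty) ∧
  (∀ a b, p.2 a b = p.2 b a) ∧
  (∀ a b c, (⋃ x ∈ p.2 a b, p.2 x c) = ⋃ x ∈ p.2 b c, p.2 a x) ∧
  (∀ a, p.2 0 a = {a}) ∧
  (∀ a, ∃! b, (0 : Fin (r+1)) ∈ p.2 a b) ∧
  (∀ a b c d, a ∈ p.2 b c → (0 : Fin (r+1)) ∈ p.2 b d → c ∈ p.2 a d) ∧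
  (∀ a b c, (fun x => p.1 a x) '' p.2 b c = p.2 (p.1 a b) (p.1 a c))

/-- isomorphism of structures -/
def Iso {r : ℕ} (p q : Str r) : Prop :=
  ∃ e : Fin (r+1) ≃ Fin (r+1), ∀ a b, e (p.1 a b) = q.1 (e a) (e b) ∧ e '' p.2 a b = q.2 (e a) (e b)

/-- `1 - 1` is everything. -/
def Full {r : ℕ} (p : Str r) : Prop :=
  ∀ u v : Fin (r+1), (∀ a, p.1 u a = a) → (0 : Fin (r+1)) ∈ p.2 u v → ∀ z, z ∈ p.2 u v

namespace Rep

variable {K : Type} [Field K] {G : Subgroup Kˣ} {r : ℕ} {f : K → Fin (r+1)} {p : Str r}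

lemma eq_zero_iff (h : Rep G f p) (x : K) : f x = 0 ↔ x = 0 := by
  obtain ⟨-, h0, hf, -, -⟩ := h
  constructor
  · intro hx
    rw [← h0] at hx
    obtain ⟨g, -, hg⟩ := (hf _ _).mp hx.symm
    simpa using hg
  · rintro rfl; exact h0

lemma mul_mem (h : Rep G f p) (x : K) {g : Kˣ} (hg : g ∈ G) : f (x * (g : K)) = f x :=
  ((h.2.2.1 _ _).mpr ⟨g, hg, rfl⟩).symm

lemma mul_mem' (h : Rep G f p) (x : K) {g : Kˣ} (hg : g ∈ G) : f ((g : K) * x) = f x := by
  rw [mul_comm]; exact h.mul_mem x hg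

lemma mem_add (h : Rep G f p) (x y : K) (z : Fin (r+1)) :
    z ∈ p.2 (f x) (f y) ↔ ∃ g ∈ G, z = f (x + y * (g : K)) := by
  rw [h.2.2.2.2]
  constructor
  · rintro ⟨g, hg, k, hk, rfl⟩
    refine ⟨k * g⁻¹, G.mul_mem hk (G.inv_mem hg), ?_⟩
    rw [← h.mul_mem (x + y * ((k * g⁻¹ : Kˣ) : K)) hg]
    congr 1
    push_cast
    have : (g : K) ≠ 0 := g.ne_zero
    field_simp
  · rintro ⟨g, hg, rfl⟩
    exact ⟨1, G.one_mem, g, hg, by simp⟩

lemma isHyper (h : Rep G f p) : IsHyper p := by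
  have h' := h
  obtain ⟨hs, h0, hf, hm, ha⟩ := h'
  refine ⟨⟨f 1, ?_, ?_⟩, ?_, ?_, ?_, ?_, ?_, ?_, ?_, ?_, ?_, ?_, ?_, ?_⟩
  · intro hc
    rw [h.eq_zero_iff] at hc
    exact one_ne_zero hc
  · intro a
    obtain ⟨x, rfl⟩ := hs a
    rw [← hm, one_mul]
  · intro a b
    obtain ⟨x, rfl⟩ := hs a
    obtain ⟨y, rfl⟩ := hs b
    rw [← hm, ← hm, mul_comm]
  · intro a b c
    obtain ⟨x, rfl⟩ := hs a
    obtain ⟨y, rfl⟩ := hs b
    obtain ⟨z, rfl⟩ := hs c
    simp only [← hm, mul_assoc]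
  · intro a
    obtain ⟨x, rfl⟩ := hs a
    conv_lhs => rw [← h0]
    rw [← hm, zero_mul, h0]
  · intro a b ha' hb'
    obtain ⟨x, rfl⟩ := hs a
    obtain ⟨y, rfl⟩ := hs b
    rw [← hm]
    intro hc
    rw [h.eq_zero_iff] at hc
    rcases mul_eq_zero.mp hc with h1 | h1
    · exact ha' ((h.eq_zero_iff x).mpr h1)
    · exact hb' ((h.eq_zero_iff y).mpr h1)
  · intro a ha'
    obtain ⟨x, rfl⟩ := hs a
    have hx : x ≠ 0 := fun hx => ha' ((h.eq_zero_iff x).mpr hx)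
    refine ⟨f x⁻¹, fun c => ?_⟩
    obtain ⟨z, rfl⟩ := hs c
    rw [← hm, ← hm, mul_inv_cancel₀ hx, one_mul]
  · intro a b
    obtain ⟨x, rfl⟩ := hs a
    obtain ⟨y, rfl⟩ := hs b
    exact ⟨f (x + y * ((1 : Kˣ) : K)), (h.mem_add x y _).mpr ⟨1, G.one_mem, rfl⟩⟩
  · intro a b
    obtain ⟨x, rfl⟩ := hs a
    obtain ⟨y, rfl⟩ := hs b
    ext z
    rw [ha, ha]
    constructor
    · rintro ⟨g, hg, k, hk, rfl⟩
      exact ⟨k, hk, g, hg, congrArg f (add_comm _ _)⟩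
    · rintro ⟨g, hg, k, hk, rfl⟩
      exact ⟨k, hk, g, hg, congrArg f (add_comm _ _)⟩
  · intro a b c
    obtain ⟨x, rfl⟩ := hs a
    obtain ⟨y, rfl⟩ := hs b
    obtain ⟨w, rfl⟩ := hs c
    ext z
    simp only [Set.mem_iUnion, exists_prop]
    constructor
    · rintro ⟨t, ht, hz⟩
      obtain ⟨g, hg, rfl⟩ := (h.mem_add x y t).mp ht
      obtain ⟨k, hk, rfl⟩ := (h.mem_add _ w z).mp hz
      refine ⟨f (y + w * ((k * g⁻¹ : Kˣ) : K)), (h.mem_add y w _).mpr ⟨_, G.mul_mem hk (G.inv_mem hg), rfl⟩, ?_⟩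
      refine (h.mem_add x _ _).mpr ⟨g, hg, ?_⟩
      congr 1
      push_cast
      have : (g : K) ≠ 0 := g.ne_zero
      field_simp
      ring
    · rintro ⟨t, ht, hz⟩
      obtain ⟨g, hg, rfl⟩ := (h.mem_add y w t).mp ht
      obtain ⟨k, hk, rfl⟩ := (h.mem_add x _ z).mp hz
      refine ⟨f (x + y * (k : K)), (h.mem_add x y _).mpr ⟨_, hk, rfl⟩, ?_⟩
      refine (h.mem_add _ w _).mpr ⟨g * k, G.mul_mem hg hk, ?_⟩
      congr 1
      push_cast
      ring
  · intro a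
    obtain ⟨x, rfl⟩ := hs a
    ext z
    rw [← h0, ha]
    simp only [Set.mem_ofPred_eq, Set.mem_singleton_iff]
    constructor
    · rintro ⟨g, hg, k, hk, rfl⟩
      rw [zero_mul, zero_add, h.mul_mem x hk]
    · rintro rfl
      exact ⟨1, G.one_mem, 1, G.one_mem, by simp⟩
  · intro a
    obtain ⟨x, rfl⟩ := hs a
    refine ⟨f (-x), ?_, ?_⟩
    · refine (h.mem_add x (-x) _).mpr ⟨1, G.one_mem, ?_⟩
      simp [h0]
    · intro b hb
      obtain ⟨y, rfl⟩ := hs b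
      obtain ⟨g, hg, hg2⟩ := (h.mem_add x y _).mp hb
      have h1 := (h.eq_zero_iff _).mp hg2.symm
      have h2 : y * (g : K) = -x := by linear_combination h1
      rw [← h2]
      exact (h.mul_mem y hg).symm
  · intro a b c d hA hB
    obtain ⟨y, rfl⟩ := hs b
    obtain ⟨z, rfl⟩ := hs c
    obtain ⟨w, rfl⟩ := hs d
    obtain ⟨g, hg, rfl⟩ := (h.mem_add y z a).mp hA
    obtain ⟨k, hk, hk2⟩ := (h.mem_add y w 0).mp hB
    have h1 := (h.eq_zero_iff _).mp hk2.symm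
    refine (h.mem_add _ w _).mpr ⟨k, hk, ?_⟩
    have e1 : y + z * (g : K) + w * (k : K) = z * (g : K) := by linear_combination h1
    rw [e1, h.mul_mem z hg]
  · intro a b c
    obtain ⟨x, rfl⟩ := hs a
    obtain ⟨y, rfl⟩ := hs b
    obtain ⟨z, rfl⟩ := hs c
    ext t
    rw [← hm, ← hm, ha, ha]
    constructor
    · rintro ⟨s, ⟨g, hg, k, hk, rfl⟩, rfl⟩
      refine ⟨g, hg, k, hk, ?_⟩
      show p.1 (f x) (f _) = _
      rw [← hm]
      congr 1
      ring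
    · rintro ⟨g, hg, k, hk, rfl⟩
      refine ⟨f (y * (g : K) + z * (k : K)), ⟨g, hg, k, hk, rfl⟩, ?_⟩
      show p.1 (f x) (f _) = _
      rw [← hm]
      congr 1
      ring

lemma index (h : Rep G f p) : G.index = r := by
  obtain ⟨hs, h0, hf, hm, ha⟩ := h
  have hne : ∀ x : Kˣ, f (x : K) ≠ 0 := fun x hx => x.ne_zero ((eq_zero_iff ⟨hs, h0, hf, hm, ha⟩ _).mp hx)
  have e : (Kˣ ⧸ G) ≃ {i : Fin (r+1) // i ≠ 0} := by
    refine Equiv.ofBijective (Quotient.lift (fun x : Kˣ => (⟨f (x : K), hne x⟩ : {i : Fin (r+1) // i ≠ 0})) ?_) ⟨?_, ?_⟩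
    · intro x y hxy
      have h1 : x⁻¹ * y ∈ G := QuotientGroup.leftRel_apply.mp hxy
      ext1
      refine (hf _ _).mpr ⟨x⁻¹ * y, h1, ?_⟩
      push_cast
      field_simp
    · intro a b
      refine Quotient.inductionOn₂ a b ?_
      intro x y hxy
      have h1 : f (x : K) = f (y : K) := congrArg Subtype.val hxy
      obtain ⟨g, hg, hg2⟩ := (hf _ _).mp h1
      apply Quotient.sound
      refine QuotientGroup.leftRel_apply.mpr ?_
      have : y = x * g := Units.ext hg2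
      rw [this]
      simpa using hg
    · rintro ⟨i, hi⟩
      obtain ⟨x, rfl⟩ := hs i
      have hx : x ≠ 0 := by rintro rfl; exact hi h0
      exact ⟨Quotient.mk _ (Units.mk0 x hx), rfl⟩
  have h1 : G.index = Nat.card {i : Fin (r+1) // i ≠ 0} := by
    rw [Subgroup.index, Nat.card_congr e]
  rw [h1, Nat.card_eq_fintype_card]
  simp

lemma card_eq [Fintype K] (h : Rep G f p) : Nat.card G * r + 1 = Fintype.card K := by
  have h1 := Subgroup.card_mul_index G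
  rw [h.index, Nat.card_units, Nat.card_eq_fintype_card (α := K)] at h1
  have : 0 < Fintype.card K := Fintype.card_pos
  omega

/-- If `G - G` meets all classes then the quotient is full. -/
lemma full_of (h : Rep G f p) (hG : ∀ a : K, ∃ g ∈ G, ∃ k ∈ G, f a = f ((g : K) - (k : K))) : Full p := by
  have hH := h.isHyper
  obtain ⟨hs, h0, hf, hm, ha⟩ := h
  intro u v hu hv z
  obtain ⟨x, rfl⟩ := hs u
  obtain ⟨y, rfl⟩ := hs v
  obtain ⟨a, rfl⟩ := hs z
  have hx1 : f x = f 1 := by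
    have := hu (f 1)
    rw [← hm, mul_one] at this
    exact this
  rw [hx1] at hv ⊢
  have hr : Rep G f p := ⟨hs, h0, hf, hm, ha⟩
  obtain ⟨g, hg, hg2⟩ := (hr.mem_add 1 y 0).mp hv
  have h1 := (hr.eq_zero_iff _).mp hg2.symm
  have hy : f y = f (-1) := by
    rw [← hr.mul_mem y hg]
    congr 1
    linear_combination h1
  rw [hy]
  obtain ⟨g, hg, k, hk, hgk⟩ := hG a
  rw [ha]
  refine ⟨g, hg, k, hk, ?_⟩
  rw [hgk]
  congr 1
  ring

lemma full_of_infinite [Infinite K] (h : Rep G f p) : Full p :=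
  h.full_of (fun a => sub_eq_univ_of_infinite G f h.2.2.1 a)

lemma full_of_card [Fintype K] (hr : 0 < r) (h : Rep G f p) (hK : 16 * r ^ 4 ≤ Fintype.card K) : Full p := by
  classical
  apply h.full_of
  intro a
  by_cases ha : a = 0
  · exact ⟨1, G.one_mem, 1, G.one_mem, by simp [ha]⟩
  have hc := h.card_eq
  set n := Nat.card G with hn
  set q := Fintype.card K with hq
  have h2q : 2 ≤ q := Fintype.one_lt_card
  have hlarge : q ^ 3 ≤ n ^ 4 := by
    have h1 : q ≤ 2 * (n * r) := by omega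
    have h2 : q ^ 4 ≤ 16 * r ^ 4 * n ^ 4 := by
      calc q ^ 4 ≤ (2 * (n * r)) ^ 4 := Nat.pow_le_pow_left h1 4
        _ = 16 * r ^ 4 * n ^ 4 := by ring
    have h3 : q ^ 4 ≤ q * n ^ 4 := h2.trans (Nat.mul_le_mul_right _ hK)
    have h4 : q * q ^ 3 ≤ q * n ^ 4 := by
      calc q * q ^ 3 = q ^ 4 := by ring
        _ ≤ _ := h3
    exact Nat.le_of_mul_le_mul_left h4 (by omega)
  obtain ⟨g, hg, k, hk, l, hl, hgk⟩ := sub_meets_of_large G hlarge a ha
  refine ⟨g, hg, k, hk, ?_⟩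
  rw [hgk, h.mul_mem a hl]

end Rep

/-- A subgroup of the units of a finite field is determined by its order. -/
lemma mem_iff_pow {K : Type} [Field K] [Fintype K] (G : Subgroup Kˣ) (x : Kˣ) :
    x ∈ G ↔ x ^ (Nat.card G) = 1 := by
  classical
  have : Fintype G := Fintype.ofFinite G
  constructor
  · intro hx
    have : (⟨x, hx⟩ : G) ^ (Nat.card G) = 1 := pow_card_eq_one'
    exact congrArg Subtype.val this
  · intro hx
    have hsub : (Finset.univ.filter (fun y : Kˣ => y ∈ G)) ⊆ Finset.univ.filter (fun y : Kˣ => y ^ (Nat.card G) = 1) := by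
      intro y hy
      simp only [Finset.mem_filter, Finset.mem_univ, true_and] at hy ⊢
      have : (⟨y, hy⟩ : G) ^ (Nat.card G) = 1 := pow_card_eq_one'
      exact congrArg Subtype.val this
    have hcard : (Finset.univ.filter (fun y : Kˣ => y ^ (Nat.card G) = 1)).card ≤
        (Finset.univ.filter (fun y : Kˣ => y ∈ G)).card := by
      have h1 := IsCyclic.card_pow_eq_one_le (α := Kˣ) (n := Nat.card G) Nat.card_pos
      have h2 : (Finset.univ.filter (fun y : Kˣ => y ∈ G)).card = Nat.card G := by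
        rw [Nat.card_eq_fintype_card, Fintype.card_subtype]
      rw [h2]
      exact h1
    have heq := Finset.eq_of_subset_of_card_le hsub hcard
    have : x ∈ Finset.univ.filter (fun y : Kˣ => y ^ (Nat.card G) = 1) := by simpa using hx
    rw [← heq] at this
    simpa using this

/-- Quotients of finite fields of the same cardinality with the same number of classes are isomorphic. -/
lemma iso_of_card_eq {K K' : Type} [Field K] [Fintype K] [Field K'] [Fintype K'] {r : ℕ} (hr : 0 < r)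
    {G : Subgroup Kˣ} {G' : Subgroup K'ˣ} {f : K → Fin (r+1)} {f' : K' → Fin (r+1)} {p p' : Str r}
    (h : Rep G f p) (h' : Rep G' f' p') (hc : Fintype.card K = Fintype.card K') : Iso p p' := by
  classical
  have hGG : Nat.card G = Nat.card G' := by
    have h1 := h.card_eq
    have h2 := h'.card_eq
    have h3 : Nat.card G * r = Nat.card G' * r := by omega
    exact Nat.eq_of_mul_eq_mul_right hr h3
  let φ : K ≃+* K' := FiniteField.ringEquivOfCardEq hc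
  have hmem : ∀ g : Kˣ, g ∈ G ↔ (Units.mapEquiv φ.toMulEquiv g) ∈ G' := by
    intro g
    rw [mem_iff_pow, mem_iff_pow, hGG, ← map_pow]
    constructor
    · intro hg; rw [hg, map_one]
    · intro hg
      exact (Units.mapEquiv φ.toMulEquiv).injective (by rw [hg, map_one])
  have hval : ∀ g : Kˣ, ((Units.mapEquiv φ.toMulEquiv g : K'ˣ) : K') = φ (g : K) := fun g => rfl
  have hcls : ∀ x y : K, f x = f y ↔ f' (φ x) = f' (φ y) := by
    intro x y
    rw [h.2.2.1, h'.2.2.1]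
    constructor
    · rintro ⟨g, hg, rfl⟩
      exact ⟨_, (hmem g).mp hg, by rw [hval, map_mul]⟩
    · rintro ⟨g, hg, hgy⟩
      obtain ⟨k, rfl⟩ := (Units.mapEquiv φ.toMulEquiv).surjective g
      refine ⟨k, (hmem k).mpr hg, ?_⟩
      apply φ.injective
      rw [hgy, map_mul, hval]
  -- the bijection
  let s : Fin (r+1) → K := Function.surjInv h.1
  have hs : ∀ i, f (s i) = i := Function.surjInv_eq h.1
  have hefun : ∀ x : K, f' (φ (s (f x))) = f' (φ x) := fun x => (hcls _ _).mp (hs (f x))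
  let e : Fin (r+1) ≃ Fin (r+1) := Equiv.ofBijective (fun i => f' (φ (s i))) (by
    rw [Fintype.bijective_iff_injective_and_card]
    refine ⟨?_, rfl⟩
    intro i j hij
    have := (hcls (s i) (s j)).mpr hij
    rwa [hs, hs] at this)
  have he : ∀ x : K, e (f x) = f' (φ x) := hefun
  refine ⟨e, ?_⟩
  intro a b
  obtain ⟨x, rfl⟩ := h.1 a
  obtain ⟨y, rfl⟩ := h.1 b
  constructor
  · rw [← h.2.2.2.1, he, he, he, map_mul, h'.2.2.2.1]
  · rw [h.2.2.2.2, he, he, h'.2.2.2.2]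
    ext z
    constructor
    · rintro ⟨t, ⟨g, hg, k, hk, rfl⟩, rfl⟩
      refine ⟨_, (hmem g).mp hg, _, (hmem k).mp hk, ?_⟩
      rw [he, map_add, map_mul, map_mul, hval, hval]
    · rintro ⟨g, hg, k, hk, rfl⟩
      obtain ⟨g0, rfl⟩ := (Units.mapEquiv φ.toMulEquiv).surjective g
      obtain ⟨k0, rfl⟩ := (Units.mapEquiv φ.toMulEquiv).surjective k
      refine ⟨_, ⟨g0, (hmem g0).mpr hg, k0, (hmem k0).mpr hk, rfl⟩, ?_⟩
      rw [he, map_add, map_mul, map_mul, hval, hval]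

end Pool.Agent.J6H88.HyperQ
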