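import Mathlib
import Pool.Agent.J6H88.HyperQ.Struct
import Pool.Agent.J6H88.HyperQ.Param2
import Pool.Agent.J6H88.HyperQ.AutBound

set_option autoImplicit false

namespace Pool.Agent.J6H88.HyperQ

open Finset

/-- multiplication tables of hyperfields -/
def IsMul {r : ℕ} (m : Fin (r+1) → Fin (r+1) → Fin (r+1)) : Prop :=
  (∃ u : Fin (r+1), u ≠ 0 ∧ ∀ a, m u a = a) ∧
  (∀ a b, m a b = m b a) ∧
  (∀ a b c, m (m a b) c = m a (m b c)) ∧
  (∀ a, m 0 a = 0) ∧
  (∀ a b, a ≠ 0 → b ≠ 0 → m a b ≠ 0) ∧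
  (∀ a, a ≠ 0 → ∃ b, ∀ c, m (m a b) c = c)

/-- the group with zero given by a multiplication table -/
@[instance_reducible] noncomputable def cgwz {r : ℕ} (m : Fin (r+1) → Fin (r+1) → Fin (r+1)) (hm : IsMul m) :
    CommGroupWithZero (Fin (r+1)) where
  mul := m
  mul_assoc := hm.2.2.1
  one := hm.1.choose
  one_mul := hm.1.choose_spec.2
  mul_one := fun a => (hm.2.1 _ _).trans (hm.1.choose_spec.2 a)
  npow := @npowRec _ ⟨hm.1.choose⟩ ⟨m⟩
  npow_zero := fun _ => rfl
  npow_succ := fun _ _ => rfl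
  mul_comm := hm.2.1
  zero := 0
  zero_mul := hm.2.2.2.1
  mul_zero := fun a => (hm.2.1 _ _).trans (hm.2.2.2.1 a)
  inv := fun a => if h : a = 0 then 0 else (hm.2.2.2.2.2 a h).choose
  div := fun a b => m a (if h : b = 0 then 0 else (hm.2.2.2.2.2 b h).choose)
  div_eq_mul_inv := fun _ _ => rfl
  zpow := @zpowRec _ ⟨hm.1.choose⟩ ⟨m⟩ ⟨fun a => if h : a = 0 then 0 else (hm.2.2.2.2.2 a h).choose⟩
    (@npowRec _ ⟨hm.1.choose⟩ ⟨m⟩)
  zpow_zero' := fun _ => rfl
  zpow_succ' := fun _ _ => rfl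
  zpow_neg' := fun _ _ => rfl
  exists_pair_ne := ⟨_, _, hm.1.choose_spec.1⟩
  inv_zero := by
    show (if h : (0 : Fin (r+1)) = 0 then (0 : Fin (r+1)) else _) = 0
    rw [dif_pos rfl]
  mul_inv_cancel := by
    intro a ha
    show m a (if h : a = 0 then 0 else (hm.2.2.2.2.2 a h).choose) = hm.1.choose
    have ha' : a ≠ 0 := ha
    rw [dif_neg ha']
    have h1 := (hm.2.2.2.2.2 a ha').choose_spec hm.1.choose
    rw [hm.2.1, hm.1.choose_spec.2] at h1
    exact h1

lemma card_units_eq {W : Type} [CommGroupWithZero W] [Fintype W] [DecidableEq W] {r : ℕ}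
    (h : Fintype.card W = r + 1) : Fintype.card Wˣ = r := by
  rw [Fintype.card_units, h]; rfl

/-- comparison for a single table, transported to `Fin (r+1)` -/
lemma table_compare {r : ℕ} (hr : Large r) (m : Fin (r+1) → Fin (r+1) → Fin (r+1)) (hm : IsMul m) :
    Set.ncard {add : Fin (r+1) → Fin (r+1) → Set (Fin (r+1)) | IsHyper (m, add) ∧ Full (m, add)} * 2 ^ (r / 6) ≤
      2 * Set.ncard {add : Fin (r+1) → Fin (r+1) → Set (Fin (r+1)) | IsHyper (m, add)} := by
  have key := @ncard_full_le (Fin (r+1)) (cgwz m hm) _ _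
  have hcard : @Fintype.card (@Units (Fin (r+1)) (cgwz m hm).toCommMonoidWithZero.toMonoidWithZero.toMonoid) _ = r :=
    @card_units_eq (Fin (r+1)) (cgwz m hm) _ _ r (by simp)
  rw [hcard] at key
  have key' := key hr
  have e1 : {add : Fin (r+1) → Fin (r+1) → Set (Fin (r+1)) | IsHyper (m, add) ∧ Full (m, add)} =
      {add | @IsAdd _ (cgwz m hm) add ∧ @IsFullAdd _ (cgwz m hm) add} := by
    ext add
    constructor
    · rintro ⟨h1, h2⟩
      exact ⟨h1.2.2.2.2.2.2, h2⟩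
    · rintro ⟨h1, h2⟩
      exact ⟨⟨hm.1, hm.2.1, hm.2.2.1, hm.2.2.2.1, hm.2.2.2.2.1, hm.2.2.2.2.2, h1⟩, h2⟩
  have e2 : {add : Fin (r+1) → Fin (r+1) → Set (Fin (r+1)) | IsHyper (m, add)} =
      {add | @IsAdd _ (cgwz m hm) add} := by
    ext add
    constructor
    · intro h1
      exact h1.2.2.2.2.2.2
    · intro h1
      exact ⟨hm.1, hm.2.1, hm.2.2.1, hm.2.2.2.1, hm.2.2.2.2.1, hm.2.2.2.2.2, h1⟩
  rw [e1, e2]
  exact key'

lemma table_lower {r : ℕ} (hr : Large r) (m : Fin (r+1) → Fin (r+1) → Fin (r+1)) (hm : IsMul m) :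
    2 ^ (r ^ 2 / 6) ≤
      2 * Set.ncard {add : Fin (r+1) → Fin (r+1) → Set (Fin (r+1)) | IsHyper (m, add)} := by
  have key := @two_pow_le_ncard (Fin (r+1)) (cgwz m hm) _ _
  have hcard : @Fintype.card (@Units (Fin (r+1)) (cgwz m hm).toCommMonoidWithZero.toMonoidWithZero.toMonoid) _ = r :=
    @card_units_eq (Fin (r+1)) (cgwz m hm) _ _ r (by simp)
  rw [hcard] at key
  have key' := key hr
  have e2 : {add : Fin (r+1) → Fin (r+1) → Set (Fin (r+1)) | IsHyper (m, add)} =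
      {add | @IsAdd _ (cgwz m hm) add} := by
    ext add
    constructor
    · intro h1
      exact h1.2.2.2.2.2.2
    · intro h1
      exact ⟨hm.1, hm.2.1, hm.2.2.1, hm.2.2.2.1, hm.2.2.2.2.1, hm.2.2.2.2.2, h1⟩
  rw [e2]
  exact key'

lemma table_aut {r : ℕ} (m : Fin (r+1) → Fin (r+1) → Fin (r+1)) (hm : IsMul m)
    (P : Finset (Equiv.Perm (Fin (r+1)))) (hP : ∀ e ∈ P, ∀ a b, e (m a b) = m (e a) (e b)) :
    P.card ≤ (r + 1) ^ (Nat.log 2 r) := by
  have key := @card_mulAut_le (Fin (r+1)) (cgwz m hm) _ _ P hP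
  have hcard : @Fintype.card (@Units (Fin (r+1)) (cgwz m hm).toCommMonoidWithZero.toMonoidWithZero.toMonoid) _ = r :=
    @card_units_eq (Fin (r+1)) (cgwz m hm) _ _ r (by simp)
  rw [hcard, Fintype.card_fin] at key
  exact key

/-- counting a set of pairs by first coordinate -/
lemma ncard_pairs {X Y : Type*} [Finite X] [Finite Y] [Fintype X] (Q : X × Y → Prop) :
    Set.ncard {p | Q p} = ∑ x : X, Set.ncard {y | Q (x, y)} := by
  classical
  have := Fintype.ofFinite Y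
  have h1 : Set.ncard {p | Q p} = (univ.filter (fun p : X × Y => Q p)).card := by
    rw [← Set.ncard_coe_finset]; congr 1; ext; simp
  have h2 : ∀ x, Set.ncard {y | Q (x, y)} = (univ.filter (fun y : Y => Q (x, y))).card := by
    intro x
    rw [← Set.ncard_coe_finset]; congr 1; ext; simp
  simp only [h1, h2, Finset.card_filter]
  rw [Fintype.sum_prod_type]

/-- **Comparison of all labelled structures.** -/
theorem labelled_compare {r : ℕ} (hr : Large r) :
    Set.ncard {p : Str r | IsHyper p ∧ Full p} * 2 ^ (r / 6) ≤ 2 * Set.ncard {p : Str r | IsHyper p} := by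
  classical
  rw [ncard_pairs (fun p : Str r => IsHyper p ∧ Full p), ncard_pairs (fun p : Str r => IsHyper p),
    sum_mul, mul_sum]
  apply sum_le_sum
  intro m _
  by_cases hm : IsMul m
  · exact table_compare hr m hm
  · have : {y : Fin (r+1) → Fin (r+1) → Set (Fin (r+1)) | IsHyper (m, y) ∧ Full (m, y)} = ∅ := by
      ext add
      simp only [Set.mem_ofPred_eq, Set.mem_empty_iff_false, iff_false]
      rintro ⟨h, -⟩
      exact hm ⟨h.1, h.2.1, h.2.2.1, h.2.2.2.1, h.2.2.2.2.1, h.2.2.2.2.2.1⟩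
    rw [this]
    simp

end Pool.Agent.J6H88.HyperQ
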