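import Mathlib
import Pool.Agent.J6H88.HyperQ.Table

set_option autoImplicit false

namespace Pool.Agent.J6H88.HyperQ

open Finset

variable {r : ℕ}

lemma Iso.refl (p : Str r) : Iso p p := ⟨Equiv.refl _, fun a b => by simp⟩

lemma Iso.symm {p q : Str r} (h : Iso p q) : Iso q p := by
  obtain ⟨e, he⟩ := h
  refine ⟨e.symm, fun a b => ?_⟩
  obtain ⟨a, rfl⟩ := e.surjective a
  obtain ⟨b, rfl⟩ := e.surjective b
  constructor
  · rw [← (he a b).1]; simp
  · rw [← (he a b).2]
    simp only [Equiv.symm_apply_apply]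
    rw [← Set.image_comp]
    simp

lemma Iso.trans {p q s : Str r} (h : Iso p q) (h' : Iso q s) : Iso p s := by
  obtain ⟨e, he⟩ := h
  obtain ⟨f, hf⟩ := h'
  refine ⟨e.trans f, fun a b => ?_⟩
  constructor
  · simp only [Equiv.trans_apply]
    rw [(he a b).1, (hf _ _).1]
  · simp only [Equiv.trans_apply]
    rw [← (hf _ _).2, ← (he a b).2, ← Set.image_comp]
    rfl

/-- isomorphism as an equivalence relation -/
def isoSetoid (r : ℕ) : Setoid (Str r) where
  r := Iso
  iseqv := ⟨Iso.refl, Iso.symm, Iso.trans⟩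

/-- isomorphism class -/
def cls (p : Str r) : Quotient (isoSetoid r) := Quotient.mk (isoSetoid r) p

lemma cls_eq_iff {p q : Str r} : cls p = cls q ↔ Iso p q := by
  constructor
  · intro h; exact Quotient.exact h
  · intro h; exact Quotient.sound h

/-- number of isomorphism classes in a set of structures -/
noncomputable def ncl (T : Set (Str r)) : ℕ := Set.ncard (cls '' T)

lemma ncl_mono {T T' : Set (Str r)} (h : T ⊆ T') : ncl T ≤ ncl T' :=
  Set.ncard_le_ncard (Set.image_mono h) (Set.toFinite _)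

lemma ncl_union_le (T T' : Set (Str r)) : ncl (T ∪ T') ≤ ncl T + ncl T' := by
  unfold ncl
  rw [Set.image_union]
  exact Set.ncard_union_le _ _

/-- the number of classes as in the frozen statement -/
lemma ncard_classes_eq (P : Str r → Prop) :
    Set.ncard {C : Set (Str r) | ∃ p, P p ∧ C = {q | P q ∧ Iso p q}} = ncl {p | P p} := by
  unfold ncl
  symm
  apply Set.ncard_congr (fun c _ => {q | P q ∧ cls q = c})
  · rintro c ⟨p, hp, rfl⟩
    refine ⟨p, hp, ?_⟩
    ext q
    simp only [Set.mem_ofPred_eq]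
    rw [cls_eq_iff]
    constructor
    · rintro ⟨h1, h2⟩; exact ⟨h1, h2.symm⟩
    · rintro ⟨h1, h2⟩; exact ⟨h1, h2.symm⟩
  · rintro c c' ⟨p, hp, rfl⟩ ⟨p', hp', rfl⟩ h
    have : p ∈ {q | P q ∧ cls q = cls p} := ⟨hp, rfl⟩
    rw [h] at this
    exact this.2
  · rintro C ⟨p, hp, rfl⟩
    refine ⟨cls p, ⟨p, hp, rfl⟩, ?_⟩
    ext q
    simp only [Set.mem_ofPred_eq]
    rw [cls_eq_iff]
    constructor
    · rintro ⟨h1, h2⟩; exact ⟨h1, h2.symm⟩
    · rintro ⟨h1, h2⟩; exact ⟨h1, h2.symm⟩

/-- transport of structure -/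
def act (e : Equiv.Perm (Fin (r+1))) (p : Str r) : Str r :=
  (fun a b => e (p.1 (e.symm a) (e.symm b)), fun a b => e '' p.2 (e.symm a) (e.symm b))

lemma act_fst (e : Equiv.Perm (Fin (r+1))) (p : Str r) (a b : Fin (r+1)) :
    (act e p).1 (e a) (e b) = e (p.1 a b) := by simp [act]

lemma act_snd (e : Equiv.Perm (Fin (r+1))) (p : Str r) (a b : Fin (r+1)) :
    (act e p).2 (e a) (e b) = e '' (p.2 a b) := by simp [act]

lemma iso_act (e : Equiv.Perm (Fin (r+1))) (p : Str r) : Iso p (act e p) :=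
  ⟨e, fun a b => ⟨(act_fst e p a b).symm, (act_snd e p a b).symm⟩⟩

lemma eq_act_of_iso {p q : Str r} (h : Iso p q) : ∃ e, q = act e p := by
  obtain ⟨e, he⟩ := h
  refine ⟨e, ?_⟩
  refine Prod.ext ?_ ?_
  · funext a b
    obtain ⟨a, rfl⟩ := e.surjective a
    obtain ⟨b, rfl⟩ := e.surjective b
    rw [act_fst, (he a b).1]
  · funext a b
    obtain ⟨a, rfl⟩ := e.surjective a
    obtain ⟨b, rfl⟩ := e.surjective b
    rw [act_snd, (he a b).2]

lemma isHyper_act {e : Equiv.Perm (Fin (r+1))} (he : e 0 = 0) {p : Str r} (h : IsHyper p) :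
    IsHyper (act e p) := by
  obtain ⟨⟨u, hu0, hu⟩, hmc, hma, hm0, hmn, hmi, hne, hac, haa, ha0, hneg, hrev, hdist⟩ := h
  have e0 : ∀ a, e a = 0 ↔ a = 0 := by
    intro a
    constructor
    · intro h; rw [← he] at h; exact e.injective h
    · rintro rfl; exact he
  refine ⟨⟨e u, fun h => hu0 ((e0 u).mp h), ?_⟩, ?_, ?_, ?_, ?_, ?_, ?_, ?_, ?_, ?_, ?_, ?_, ?_⟩
  · intro a
    obtain ⟨a, rfl⟩ := e.surjective a
    rw [act_fst, hu]
  · intro a b
    obtain ⟨a, rfl⟩ := e.surjective a
    obtain ⟨b, rfl⟩ := e.surjective b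
    rw [act_fst, act_fst, hmc]
  · intro a b c
    obtain ⟨a, rfl⟩ := e.surjective a
    obtain ⟨b, rfl⟩ := e.surjective b
    obtain ⟨c, rfl⟩ := e.surjective c
    simp only [act_fst, hma]
  · intro a
    obtain ⟨a, rfl⟩ := e.surjective a
    have := act_fst e p 0 a
    rw [he, hm0, he] at this
    exact this
  · intro a b ha hb
    obtain ⟨a, rfl⟩ := e.surjective a
    obtain ⟨b, rfl⟩ := e.surjective b
    rw [act_fst]
    intro hc
    exact hmn a b (fun h => ha ((e0 a).mpr h)) (fun h => hb ((e0 b).mpr h)) ((e0 _).mp hc)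
  · intro a ha
    obtain ⟨a, rfl⟩ := e.surjective a
    obtain ⟨b, hb⟩ := hmi a (fun h => ha ((e0 a).mpr h))
    refine ⟨e b, ?_⟩
    intro c
    obtain ⟨c, rfl⟩ := e.surjective c
    rw [act_fst, act_fst, hb]
  · intro a b
    obtain ⟨a, rfl⟩ := e.surjective a
    obtain ⟨b, rfl⟩ := e.surjective b
    rw [act_snd]
    exact (hne a b).image _
  · intro a b
    obtain ⟨a, rfl⟩ := e.surjective a
    obtain ⟨b, rfl⟩ := e.surjective b
    rw [act_snd, act_snd, hac]
  · intro a b c
    obtain ⟨a, rfl⟩ := e.surjective a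
    obtain ⟨b, rfl⟩ := e.surjective b
    obtain ⟨c, rfl⟩ := e.surjective c
    rw [act_snd, act_snd, Set.biUnion_image, Set.biUnion_image]
    simp only [act_snd]
    rw [← Set.image_iUnion₂, ← Set.image_iUnion₂, haa]
  · intro a
    obtain ⟨a, rfl⟩ := e.surjective a
    have := act_snd e p 0 a
    rw [he, ha0, Set.image_singleton] at this
    exact this
  · intro a
    obtain ⟨a, rfl⟩ := e.surjective a
    obtain ⟨b, hb, hbu⟩ := hneg a
    refine ⟨e b, ?_, ?_⟩
    · show (0 : Fin (r+1)) ∈ (act e p).2 (e a) (e b)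
      rw [act_snd]
      exact ⟨0, hb, he⟩
    · intro c hc
      obtain ⟨c, rfl⟩ := e.surjective c
      have hc' : (0 : Fin (r+1)) ∈ (act e p).2 (e a) (e c) := hc
      rw [act_snd] at hc'
      obtain ⟨z, hz, hz0⟩ := hc'
      rw [e0] at hz0
      subst hz0
      rw [hbu c hz]
  · intro a b c d h1 h2
    obtain ⟨a, rfl⟩ := e.surjective a
    obtain ⟨b, rfl⟩ := e.surjective b
    obtain ⟨c, rfl⟩ := e.surjective c
    obtain ⟨d, rfl⟩ := e.surjective d
    rw [act_snd] at h1 h2 ⊢
    obtain ⟨x, hx, hxa⟩ := h1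
    obtain ⟨z, hz, hz0⟩ := h2
    have := e.injective hxa
    subst this
    rw [e0] at hz0
    subst hz0
    exact ⟨c, hrev _ _ _ _ hx hz, rfl⟩
  · intro a b c
    obtain ⟨a, rfl⟩ := e.surjective a
    obtain ⟨b, rfl⟩ := e.surjective b
    obtain ⟨c, rfl⟩ := e.surjective c
    rw [act_snd, act_fst, act_fst, act_snd, ← hdist, ← Set.image_comp, ← Set.image_comp]
    apply Set.image_congr
    intro x _
    simp only [Function.comp_apply, act_fst]

lemma full_act {e : Equiv.Perm (Fin (r+1))} (he : e 0 = 0) {p : Str r} (h : Full p) :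
    Full (act e p) := by
  intro u v hu hv z
  obtain ⟨u, rfl⟩ := e.surjective u
  obtain ⟨v, rfl⟩ := e.surjective v
  obtain ⟨z, rfl⟩ := e.surjective z
  rw [act_snd] at hv ⊢
  obtain ⟨t, ht, ht0⟩ := hv
  have ht' : t = 0 := by rw [← he] at ht0; exact e.injective ht0
  subst ht'
  refine ⟨z, h u v ?_ ht z, rfl⟩
  intro a
  have := hu (e a)
  rw [act_fst] at this
  exact e.injective this

/-- permutations fixing `0` -/
def fixZero (r : ℕ) : Finset (Equiv.Perm (Fin (r+1))) := univ.filter (fun e => e 0 = 0)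

lemma card_perm_le : Fintype.card (Equiv.Perm (Fin (r+1))) ≤ (r + 1) * (fixZero r).card := by
  have : (univ : Finset (Equiv.Perm (Fin (r+1)))) ⊆
      ((univ : Finset (Fin (r+1))) ×ˢ fixZero r).image (fun s => Equiv.swap 0 s.1 * s.2) := by
    intro σ _
    rw [mem_image]
    refine ⟨(σ 0, Equiv.swap 0 (σ 0) * σ), ?_, ?_⟩
    · rw [mem_product]
      refine ⟨mem_univ _, ?_⟩
      simp [fixZero]
    · simp only
      rw [← mul_assoc, Equiv.swap_mul_self, one_mul]
  calc Fintype.card (Equiv.Perm (Fin (r+1))) = (univ : Finset (Equiv.Perm (Fin (r+1)))).card := rfl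
    _ ≤ _ := card_le_card this
    _ ≤ _ := card_image_le
    _ = (r + 1) * (fixZero r).card := by rw [card_product]; simp

lemma card_fixZero_pos : 0 < (fixZero r).card := card_pos.mpr ⟨1, by simp [fixZero]⟩

/-- lower bound for the number of all classes -/
lemma ncard_le_ncl (T : Set (Str r)) :
    Set.ncard T ≤ ncl T * Fintype.card (Equiv.Perm (Fin (r+1))) := by
  classical
  have hfin : T.Finite := Set.toFinite T
  set T' : Finset (Str r) := hfin.toFinset with hT'
  have h1 : Set.ncard T = T'.card := Set.ncard_eq_toFinset_card T hfin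
  have h2 : ncl T = (T'.image cls).card := by
    rw [ncl, ← Set.ncard_coe_finset]
    congr 1
    rw [Finset.coe_image, hT', Set.Finite.coe_toFinset]
  rw [h1, h2, mul_comm]
  apply Finset.card_le_mul_card_image
  intro c hc
  obtain ⟨p, hp, rfl⟩ := mem_image.mp hc
  have hsub : (T'.filter (fun q => cls q = cls p)) ⊆ (univ : Finset (Equiv.Perm (Fin (r+1)))).image (fun e => act e p) := by
    intro q hq
    rw [mem_filter] at hq
    obtain ⟨e, he⟩ := eq_act_of_iso (cls_eq_iff.mp hq.2.symm)
    rw [mem_image]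
    exact ⟨e, mem_univ _, he.symm⟩
  calc _ ≤ _ := card_le_card hsub
    _ ≤ _ := card_image_le
    _ = _ := rfl

/-- upper bound for the number of full classes -/
lemma ncl_full_le :
    ncl {p : Str r | IsHyper p ∧ Full p} * (fixZero r).card ≤
      (r + 1) ^ (Nat.log 2 r) * Set.ncard {p : Str r | IsHyper p ∧ Full p} := by
  classical
  set T : Set (Str r) := {p : Str r | IsHyper p ∧ Full p} with hT
  have hfin : T.Finite := Set.toFinite T
  set T' : Finset (Str r) := hfin.toFinset with hT'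
  have hmem : ∀ p, p ∈ T' ↔ IsHyper p ∧ Full p := by intro p; simp [hT', hT]
  have h1 : Set.ncard T = T'.card := Set.ncard_eq_toFinset_card T hfin
  have h2 : ncl T = (T'.image cls).card := by
    rw [ncl, ← Set.ncard_coe_finset]
    congr 1
    rw [Finset.coe_image, hT', Set.Finite.coe_toFinset]
  rw [h1, h2]
  set A := (r + 1) ^ (Nat.log 2 r) with hA
  have h3 : ∀ c ∈ T'.image cls, (fixZero r).card ≤ A * (T'.filter (fun q => cls q = c)).card := by
    intro c hc
    obtain ⟨p, hp, rfl⟩ := mem_image.mp hc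
    have hpH := (hmem p).mp hp
    apply Finset.card_le_mul_card_image_of_maps_to (f := fun e => act e p)
    · intro e he
      have he0 : e 0 = 0 := by simpa [fixZero] using he
      rw [mem_filter]
      refine ⟨(hmem _).mpr ⟨isHyper_act he0 hpH.1, full_act he0 hpH.2⟩, ?_⟩
      exact cls_eq_iff.mpr (iso_act e p).symm
    · intro q _
      rcases ((fixZero r).filter (fun e => act e p = q)).eq_empty_or_nonempty with h | ⟨e0, he0⟩
      · rw [h]; simp
      · rw [mem_filter] at he0
        have hle : (((fixZero r).filter (fun e => act e p = q)).image (fun e => e0⁻¹ * e)).card ≤ A := by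
          apply table_aut p.1
          · exact ⟨hpH.1.1, hpH.1.2.1, hpH.1.2.2.1, hpH.1.2.2.2.1, hpH.1.2.2.2.2.1, hpH.1.2.2.2.2.2.1⟩
          · intro σ hσ a b
            obtain ⟨e, he, rfl⟩ := mem_image.mp hσ
            rw [mem_filter] at he
            have heq : act e p = act e0 p := he.2.trans he0.2.symm
            have h5 := act_fst e p a b
            rw [heq] at h5
            have h6 := act_fst e0 p (e0⁻¹ (e a)) (e0⁻¹ (e b))
            have h7 : ∀ x, e0 (e0⁻¹ x) = x := fun x => e0.apply_symm_apply x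
            have h8 : ∀ x, e0⁻¹ (e0 x) = x := fun x => e0.symm_apply_apply x
            rw [h7, h7, h5] at h6
            simp only [Equiv.Perm.mul_apply]
            rw [h6, h8]
        rw [Finset.card_image_of_injective _ (mul_right_injective _)] at hle
        exact hle
  have h4 : T'.card = ∑ c ∈ T'.image cls, (T'.filter (fun q => cls q = c)).card :=
    Finset.card_eq_sum_card_fiberwise (fun x hx => mem_image_of_mem _ hx)
  rw [h4, mul_sum]
  calc (T'.image cls).card * (fixZero r).card = ∑ c ∈ T'.image cls, (fixZero r).card := by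
        rw [sum_const, smul_eq_mul]
    _ ≤ _ := sum_le_sum h3

end Pool.Agent.J6H88.HyperQ
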