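import Mathlib

set_option autoImplicit false

namespace Pool.Agent.J6H88.HyperQ

open Filter Topology

lemma eventually_log_le : ∀ᶠ r : ℕ in atTop, Real.log ((r : ℝ) + 1) ≤ ((r : ℝ) + 1) / 100 ∧
    Real.log ((r : ℝ) + 1) ^ 2 ≤ ((r : ℝ) + 1) / 100 := by
  have h1 : ∀ n : ℕ, ∀ᶠ x : ℝ in atTop, Real.log x ^ n ≤ x / 100 := by
    intro n
    have h := (Real.isLittleO_pow_log_id_atTop (n := n)).bound (c := 1 / 100) (by norm_num)
    filter_upwards [h, eventually_ge_atTop (0 : ℝ)] with x hx hx0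
    have : Real.log x ^ n ≤ ‖Real.log x ^ n‖ := Real.le_norm_self _
    rw [id, Real.norm_of_nonneg hx0] at hx
    linarith
  have h2 : Tendsto (fun r : ℕ => (r : ℝ) + 1) atTop atTop :=
    tendsto_atTop_add_const_right _ _ tendsto_natCast_atTop_atTop
  filter_upwards [h2.eventually (h1 1), h2.eventually (h1 2)] with r h3 h4
  exact ⟨by simpa using h3, h4⟩

lemma log_two_ge : (1 : ℝ) / 2 ≤ Real.log 2 := by
  have := Real.log_two_gt_d9
  linarith

lemma tendsto_exp_neg (c : ℝ) (hc : 0 < c) (C : ℝ) :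
    Tendsto (fun r : ℕ => C * Real.exp (-(c * ((r : ℝ) + 1)))) atTop (𝓝 0) := by
  have h2 : Tendsto (fun r : ℕ => c * ((r : ℝ) + 1)) atTop atTop := by
    apply Tendsto.const_mul_atTop hc
    exact tendsto_atTop_add_const_right _ _ tendsto_natCast_atTop_atTop
  have h3 := (Real.tendsto_exp_neg_atTop_nhds_zero.comp h2).const_mul C
  simpa using h3

lemma lim_one : Tendsto (fun r : ℕ => 2 * ((r : ℝ) + 1) * ((r : ℝ) + 1) ^ (Nat.log 2 r) / 2 ^ (r / 6))
    atTop (𝓝 0) := by
  refine squeeze_zero' (g := fun r : ℕ => (2 * Real.exp (1 / 2)) * Real.exp (-((1 / 20) * ((r : ℝ) + 1)))) ?_ ?_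
    (tendsto_exp_neg (1 / 20) (by norm_num) _)
  · exact Eventually.of_forall (fun r => by positivity)
  · filter_upwards [eventually_log_le, eventually_ge_atTop 1] with r hr hr1
    obtain ⟨hl1, hl2⟩ := hr
    set x : ℝ := (r : ℝ) + 1 with hx
    have hxpos : 0 < x := by positivity
    have hr1' : (1 : ℝ) ≤ r := by exact_mod_cast hr1
    have hx1 : 1 ≤ x := by linarith
    have hlog0 : 0 ≤ Real.log x := Real.log_nonneg hx1
    set n := Nat.log 2 r with hn
    have hn1 : (n : ℝ) ≤ 2 * Real.log x := by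
      have h1 : 2 ^ n ≤ r := Nat.pow_log_le_self 2 (by omega)
      have h2 : ((2 : ℝ) ^ n) ≤ x := by
        have : ((2 : ℝ) ^ n) ≤ (r : ℝ) := by exact_mod_cast h1
        linarith
      have h3 := Real.log_le_log (by positivity) h2
      rw [Real.log_pow] at h3
      have h4 := log_two_ge
      nlinarith [Nat.cast_nonneg (α := ℝ) n]
    have hnum : 2 * x * x ^ n ≤ 2 * Real.exp (3 * x / 100) := by
      have h1 : x * x ^ n = Real.exp (((n : ℝ) + 1) * Real.log x) := by
        have h5 : x * x ^ n = x ^ (n + 1) := by ring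
        rw [h5]
        have h6 : ((n : ℝ) + 1) * Real.log x = ((n + 1 : ℕ) : ℝ) * Real.log x := by push_cast; ring
        rw [h6, ← Real.log_pow, Real.exp_log (by positivity)]
      have h2 : ((n : ℝ) + 1) * Real.log x ≤ 3 * x / 100 := by
        nlinarith
      rw [mul_assoc, h1]
      exact mul_le_mul_of_nonneg_left (Real.exp_le_exp.mpr h2) (by norm_num)
    have hden : Real.exp (x / 12 - 1 / 2) ≤ 2 ^ (r / 6) := by
      have h1 : ((2 : ℝ) ^ (r / 6)) = Real.exp (((r / 6 : ℕ) : ℝ) * Real.log 2) := by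
        rw [← Real.log_pow, Real.exp_log (by positivity)]
      rw [h1]
      apply Real.exp_le_exp.mpr
      have h2 : (r : ℝ) ≤ 6 * ((r / 6 : ℕ) : ℝ) + 5 := by
        have : r ≤ 6 * (r / 6) + 5 := by omega
        exact_mod_cast this
      have h4 := log_two_ge
      have h5 : (0 : ℝ) ≤ ((r / 6 : ℕ) : ℝ) := Nat.cast_nonneg _
      nlinarith
    calc 2 * x * x ^ n / 2 ^ (r / 6) ≤ (2 * Real.exp (3 * x / 100)) / Real.exp (x / 12 - 1 / 2) := by
          apply div_le_div₀ (by positivity) hnum (Real.exp_pos _) hden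
      _ = 2 * Real.exp (3 * x / 100 - (x / 12 - 1 / 2)) := by
          rw [Real.exp_sub (3 * x / 100)]; ring
      _ ≤ 2 * Real.exp (1 / 2 + -(1 / 20 * x)) := by
          apply mul_le_mul_of_nonneg_left _ (by norm_num)
          apply Real.exp_le_exp.mpr
          linarith
      _ = 2 * Real.exp (1 / 2) * Real.exp (-(1 / 20 * x)) := by
          rw [Real.exp_add]; ring

lemma lim_two : Tendsto (fun r : ℕ => 32 * (r : ℝ) ^ 4 * (Nat.factorial (r + 1) : ℝ) / 2 ^ (r ^ 2 / 6))
    atTop (𝓝 0) := by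
  refine squeeze_zero' (g := fun r : ℕ => 32 * Real.exp (-(1 * ((r : ℝ) + 1)))) ?_ ?_
    (tendsto_exp_neg 1 (by norm_num) _)
  · exact Eventually.of_forall (fun r => by positivity)
  · filter_upwards [eventually_log_le, eventually_ge_atTop 1000] with r hr hr1
    obtain ⟨hl1, hl2⟩ := hr
    set x : ℝ := (r : ℝ) + 1 with hx
    have hxpos : 0 < x := by positivity
    have hr1' : (1000 : ℝ) ≤ r := by exact_mod_cast hr1
    have hx1 : 1 ≤ x := by linarith
    have hlog0 : 0 ≤ Real.log x := Real.log_nonneg hx1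
    have hnum : 32 * (r : ℝ) ^ 4 * (Nat.factorial (r + 1) : ℝ) ≤ 32 * Real.exp ((x + 4) * x / 100) := by
      have h1 : (Nat.factorial (r + 1) : ℝ) ≤ x ^ (r + 1) := by
        have := Nat.factorial_le_pow (r + 1)
        have h2 : (Nat.factorial (r + 1) : ℝ) ≤ (((r + 1 : ℕ) : ℝ)) ^ (r + 1) := by exact_mod_cast this
        simpa [hx] using h2
      have h2 : (r : ℝ) ^ 4 ≤ x ^ 4 := pow_le_pow_left₀ (by positivity) (by linarith) 4
      have h3 : x ^ 4 * x ^ (r + 1) = Real.exp ((x + 4) * Real.log x) := by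
        have h5 : x ^ 4 * x ^ (r + 1) = x ^ (r + 5) := by rw [← pow_add]; congr 1; ring
        rw [h5]
        have h6 : (x + 4) * Real.log x = ((r + 5 : ℕ) : ℝ) * Real.log x := by push_cast; rw [hx]; ring
        rw [h6, ← Real.log_pow, Real.exp_log (by positivity)]
      have h4 : (x + 4) * Real.log x ≤ (x + 4) * x / 100 := by nlinarith
      calc 32 * (r : ℝ) ^ 4 * (Nat.factorial (r + 1) : ℝ) = 32 * ((r : ℝ) ^ 4 * (Nat.factorial (r + 1) : ℝ)) := by ring
        _ ≤ 32 * (x ^ 4 * x ^ (r + 1)) := by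
            apply mul_le_mul_of_nonneg_left _ (by norm_num)
            exact mul_le_mul h2 h1 (by positivity) (by positivity)
        _ = 32 * Real.exp ((x + 4) * Real.log x) := by rw [h3]
        _ ≤ _ := mul_le_mul_of_nonneg_left (Real.exp_le_exp.mpr h4) (by norm_num)
    have hden : Real.exp ((x ^ 2 - 2 * x - 4) / 12) ≤ 2 ^ (r ^ 2 / 6) := by
      have h1 : ((2 : ℝ) ^ (r ^ 2 / 6)) = Real.exp (((r ^ 2 / 6 : ℕ) : ℝ) * Real.log 2) := by
        rw [← Real.log_pow, Real.exp_log (by positivity)]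
      rw [h1]
      apply Real.exp_le_exp.mpr
      have h2 : (r : ℝ) ^ 2 ≤ 6 * ((r ^ 2 / 6 : ℕ) : ℝ) + 5 := by
        have : r ^ 2 ≤ 6 * (r ^ 2 / 6) + 5 := by omega
        exact_mod_cast this
      have h4 := log_two_ge
      have h5 : (0 : ℝ) ≤ ((r ^ 2 / 6 : ℕ) : ℝ) := Nat.cast_nonneg _
      have h6 : x ^ 2 - 2 * x - 4 = (r : ℝ) ^ 2 - 5 := by rw [hx]; ring
      rw [h6]
      nlinarith
    calc 32 * (r : ℝ) ^ 4 * (Nat.factorial (r + 1) : ℝ) / 2 ^ (r ^ 2 / 6)
        ≤ (32 * Real.exp ((x + 4) * x / 100)) / Real.exp ((x ^ 2 - 2 * x - 4) / 12) := by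
          apply div_le_div₀ (by positivity) hnum (Real.exp_pos _) hden
      _ = 32 * Real.exp ((x + 4) * x / 100 - (x ^ 2 - 2 * x - 4) / 12) := by
          rw [Real.exp_sub ((x + 4) * x / 100)]; ring
      _ ≤ 32 * Real.exp (-(1 * x)) := by
          apply mul_le_mul_of_nonneg_left _ (by norm_num)
          apply Real.exp_le_exp.mpr
          nlinarith

end Pool.Agent.J6H88.HyperQ
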