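import Mathlib
import Pool.Agent.J6H88.HyperQ.Classes
import Pool.Agent.J6H88.HyperQ.Limit

set_option autoImplicit false

namespace Pool.Agent.J6H88.HyperQ

open Finset Filter Topology

/-- `p` is a quotient of a finite field with `n` elements -/
def FinRep {r : ℕ} (p : Str r) (n : ℕ) : Prop :=
  ∃ (K : Type) (_ : Field K) (_ : Fintype K), ∃ G : Subgroup Kˣ, ∃ f : K → Fin (r+1), Rep G f p ∧ Fintype.card K = n

lemma iso_of_finRep {r : ℕ} (hr : 0 < r) {p p' : Str r} {n : ℕ} (h : FinRep p n) (h' : FinRep p' n) : Iso p p' := by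
  obtain ⟨K, _, _, G, f, hf, hn⟩ := h
  obtain ⟨K', _, _, G', f', hf', hn'⟩ := h'
  exact iso_of_card_eq hr hf hf' (hn.trans hn'.symm)

lemma isQuot_cases {r : ℕ} (hr : 0 < r) {p : Str r} (h : IsQuot p) :
    (∃ n < 16 * r ^ 4, FinRep p n) ∨ (IsHyper p ∧ Full p) := by
  obtain ⟨K, _, G, f, hf⟩ := h
  rcases finite_or_infinite K with hK | hK
  · have := Fintype.ofFinite K
    by_cases hc : Fintype.card K < 16 * r ^ 4
    · left
      exact ⟨_, hc, K, _, _, G, f, hf, rfl⟩
    · right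
      exact ⟨hf.isHyper, hf.full_of_card hr (by omega)⟩
  · right
    exact ⟨hf.isHyper, hf.full_of_infinite⟩

lemma ncl_small_le {r : ℕ} (hr : 0 < r) :
    ncl {p : Str r | ∃ n < 16 * r ^ 4, FinRep p n} ≤ 16 * r ^ 4 := by
  classical
  let g : ℕ → Quotient (isoSetoid r) := fun n =>
    if h : ∃ p : Str r, FinRep p n then cls h.choose else cls (fun _ _ => 0, fun _ _ => ∅)
  have hsub : cls '' {p : Str r | ∃ n < 16 * r ^ 4, FinRep p n} ⊆
      (((range (16 * r ^ 4)).image g : Finset (Quotient (isoSetoid r))) : Set (Quotient (isoSetoid r))) := by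
    rintro c ⟨p, ⟨n, hn, hp⟩, rfl⟩
    rw [Finset.mem_coe, mem_image]
    refine ⟨n, mem_range.mpr hn, ?_⟩
    have hex : ∃ p : Str r, FinRep p n := ⟨p, hp⟩
    simp only [g]
    rw [dif_pos hex, cls_eq_iff]
    exact iso_of_finRep hr hex.choose_spec hp
  calc _ ≤ Set.ncard (((range (16 * r ^ 4)).image g : Finset (Quotient (isoSetoid r))) : Set (Quotient (isoSetoid r))) :=
        Set.ncard_le_ncard hsub (Finset.finite_toSet _)
    _ = ((range (16 * r ^ 4)).image g).card := Set.ncard_coe_finset _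
    _ ≤ (range (16 * r ^ 4)).card := card_image_le
    _ = _ := card_range _

lemma ncl_quot_le {r : ℕ} (hr : 0 < r) :
    ncl {p : Str r | IsQuot p} ≤ 16 * r ^ 4 + ncl {p : Str r | IsHyper p ∧ Full p} := by
  have h1 : {p : Str r | IsQuot p} ⊆ {p : Str r | ∃ n < 16 * r ^ 4, FinRep p n} ∪ {p : Str r | IsHyper p ∧ Full p} := by
    intro p hp
    exact isQuot_cases hr hp
  calc _ ≤ _ := ncl_mono h1
    _ ≤ _ := ncl_union_le _ _
    _ ≤ _ := Nat.add_le_add_right (ncl_small_le hr) _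

lemma ncl_full_bound {r : ℕ} (hL : Large r) :
    ncl {p : Str r | IsHyper p ∧ Full p} * 2 ^ (r / 6) ≤
      2 * (r + 1) * (r + 1) ^ (Nat.log 2 r) * ncl {p : Str r | IsHyper p} := by
  have h1 := ncl_full_le (r := r)
  have h2 := labelled_compare hL
  have h3 := ncard_le_ncl {p : Str r | IsHyper p}
  have h4 := card_perm_le (r := r)
  have h5 := card_fixZero_pos (r := r)
  set a := ncl {p : Str r | IsHyper p ∧ Full p}
  set b := (fixZero r).card
  set A := (r + 1) ^ (Nat.log 2 r)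
  set s' := Set.ncard {p : Str r | IsHyper p ∧ Full p}
  set s := Set.ncard {p : Str r | IsHyper p}
  set N := ncl {p : Str r | IsHyper p}
  set Q := Fintype.card (Equiv.Perm (Fin (r+1)))
  set t := 2 ^ (r / 6)
  have h6 : b * (a * t) ≤ b * (2 * (r + 1) * A * N) := by
    calc b * (a * t) = (a * b) * t := by ring
      _ ≤ (A * s') * t := Nat.mul_le_mul_right _ h1
      _ = A * (s' * t) := by ring
      _ ≤ A * (2 * s) := Nat.mul_le_mul_left _ h2
      _ ≤ A * (2 * (N * Q)) := Nat.mul_le_mul_left _ (Nat.mul_le_mul_left _ h3)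
      _ ≤ A * (2 * (N * ((r + 1) * b))) :=
          Nat.mul_le_mul_left _ (Nat.mul_le_mul_left _ (Nat.mul_le_mul_left _ h4))
      _ = b * (2 * (r + 1) * A * N) := by ring
  exact Nat.le_of_mul_le_mul_left h6 h5

/-- existence of a multiplication table -/
lemma exists_isMul {r : ℕ} (hr : 0 < r) : ∃ m : Fin (r+1) → Fin (r+1) → Fin (r+1), IsMul m := by
  classical
  have : NeZero r := ⟨by omega⟩
  let W := WithZero (Multiplicative (ZMod r))
  have hcard : Fintype.card (Option (Multiplicative (ZMod r))) = r + 1 := by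
    rw [Fintype.card_option]
    have : Fintype.card (Multiplicative (ZMod r)) = Fintype.card (ZMod r) := Fintype.card_congr Multiplicative.toAdd
    rw [this, ZMod.card]
  let eo : Option (Multiplicative (ZMod r)) ≃ W :=
    { toFun := fun o => o.elim 0 (fun a => (a : W))
      invFun := fun w => WithZero.recZeroCoe none some w
      left_inv := by rintro (_ | a) <;> rfl
      right_inv := by
        intro w
        induction w using WithZero.recZeroCoe <;> rfl }
  have e0 : W ≃ Fin (r+1) := eo.symm.trans (Fintype.equivFinOfCardEq hcard)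
  let e : W ≃ Fin (r+1) := e0.trans (Equiv.swap (e0 0) 0)
  have he : e 0 = 0 := by simp [e]
  have hez : ∀ w, e w = 0 ↔ w = 0 := by
    intro w
    constructor
    · intro h; rw [← he] at h; exact e.injective h
    · rintro rfl; exact he
  have hes : e.symm 0 = 0 := by rw [Equiv.symm_apply_eq]; exact he.symm
  have hesz : ∀ a, e.symm a = 0 ↔ a = 0 := by
    intro a
    rw [Equiv.symm_apply_eq, he]
  refine ⟨fun a b => e (e.symm a * e.symm b), ⟨e 1, ?_, ?_⟩, ?_, ?_, ?_, ?_, ?_⟩
  · intro h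
    exact one_ne_zero ((hez _).mp h)
  · intro a; simp
  · intro a b; simp only [mul_comm]
  · intro a b c; simp only [Equiv.symm_apply_apply, mul_assoc]
  · intro a; simp only [hes, zero_mul, he]
  · intro a b ha hb h
    rw [hez] at h
    rcases mul_eq_zero.mp h with h1 | h1
    · exact ha ((hesz a).mp h1)
    · exact hb ((hesz b).mp h1)
  · intro a ha
    refine ⟨e (e.symm a)⁻¹, fun c => ?_⟩
    have : e.symm a ≠ 0 := fun h => ha ((hesz a).mp h)
    simp only [Equiv.symm_apply_apply]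
    rw [mul_inv_cancel₀ this, one_mul, Equiv.apply_symm_apply]

lemma ncl_hyper_lower {r : ℕ} (hr : 0 < r) (hL : Large r) :
    2 ^ (r ^ 2 / 6) ≤ 2 * (ncl {p : Str r | IsHyper p} * Nat.factorial (r + 1)) := by
  obtain ⟨m, hm⟩ := exists_isMul hr
  have h1 := table_lower hL m hm
  have h2 : Set.ncard {add : Fin (r+1) → Fin (r+1) → Set (Fin (r+1)) | IsHyper (m, add)} ≤
      Set.ncard {p : Str r | IsHyper p} := by
    apply Set.ncard_le_ncard_of_injOn (fun add => (m, add))
    · intro add h; exact h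
    · intro a _ b _ h
      exact (Prod.mk.inj h).2
  have h3 := ncard_le_ncl {p : Str r | IsHyper p}
  rw [Fintype.card_perm, Fintype.card_fin] at h3
  calc _ ≤ _ := h1
    _ ≤ 2 * Set.ncard {p : Str r | IsHyper p} := Nat.mul_le_mul_left _ h2
    _ ≤ _ := Nat.mul_le_mul_left _ h3

theorem tendsto_ratio : Tendsto (fun r : ℕ => (ncl {p : Str r | IsQuot p} : ℝ) / (ncl {p : Str r | IsHyper p} : ℝ))
    atTop (𝓝 0) := by
  have hlim := lim_one.add lim_two
  rw [add_zero] at hlim
  refine squeeze_zero' (Eventually.of_forall (fun r => by positivity)) ?_ hlim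
  filter_upwards [eventually_large, eventually_gt_atTop 0] with r hL hr
  have h1 := ncl_quot_le hr
  have h2 := ncl_full_bound hL
  have h3 := ncl_hyper_lower hr hL
  set a := ncl {p : Str r | IsHyper p ∧ Full p}
  set q := ncl {p : Str r | IsQuot p}
  set N := ncl {p : Str r | IsHyper p}
  have h1' : (q : ℝ) ≤ 16 * (r : ℝ) ^ 4 + a := by exact_mod_cast h1
  have h2' : (a : ℝ) * 2 ^ (r / 6) ≤ 2 * ((r : ℝ) + 1) * ((r : ℝ) + 1) ^ (Nat.log 2 r) * N := by exact_mod_cast h2
  have h3' : (2 : ℝ) ^ (r ^ 2 / 6) ≤ 2 * (N * (Nat.factorial (r + 1) : ℝ)) := by exact_mod_cast h3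
  have hNpos : (0 : ℝ) < N := by
    rcases Nat.eq_zero_or_pos N with h | h
    · rw [h] at h3'
      have : (0 : ℝ) < 2 ^ (r ^ 2 / 6) := by positivity
      rw [Nat.cast_zero, zero_mul, mul_zero] at h3'
      linarith
    · exact_mod_cast h
  have e1 : (a : ℝ) / N ≤ 2 * ((r : ℝ) + 1) * ((r : ℝ) + 1) ^ (Nat.log 2 r) / 2 ^ (r / 6) := by
    rw [div_le_div_iff₀ hNpos (by positivity)]
    exact h2'
  have e2 : 16 * (r : ℝ) ^ 4 / N ≤ 32 * (r : ℝ) ^ 4 * (Nat.factorial (r + 1) : ℝ) / 2 ^ (r ^ 2 / 6) := by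
    rw [div_le_div_iff₀ hNpos (by positivity)]
    have : 16 * (r : ℝ) ^ 4 * 2 ^ (r ^ 2 / 6) ≤ 16 * (r : ℝ) ^ 4 * (2 * (N * (Nat.factorial (r + 1) : ℝ))) :=
      mul_le_mul_of_nonneg_left h3' (by positivity)
    calc _ ≤ _ := this
      _ = _ := by ring
  calc (q : ℝ) / N ≤ (16 * (r : ℝ) ^ 4 + a) / N := by
        apply div_le_div_of_nonneg_right h1' hNpos.le
    _ = a / N + 16 * (r : ℝ) ^ 4 / N := by ring
    _ ≤ _ := add_le_add e1 e2

end Pool.Agent.J6H88.HyperQ
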